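import Pool.Agent.T6.H15.BB.Defs

/-!
# Bloch–Beilinson filtrations on a class of varieties: internal definitions
-/

open CategoryTheory CategoryTheory.Limits AlgebraicGeometry
open Pool.Agent.H914 Pool.Agent.H914.VarClass Pool.Agent.H914.VarClass.Obj Pool.Agent.R903

universe u v w

namespace Pool.Agent.T6.H15.BB

variable {k : Type u} [Field k] {𝒱 : VarClass k} {C : ChowTheory.{u, v} 𝒱}

/-- The Künneth conjecture for the varieties with the property `S`: for all `X` in `S` and all `j`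
there is a correspondence in `CH^(dim X)(X × X)` which acts on `H^j(X)` as the identity and as zero
on the other `H^l(X)`. -/
def KunnethOn (W : WeilTheory.{u, v, w} C) (S : 𝒱.Obj → Prop) : Prop :=
  ∀ X, S X → ∀ j : ℕ, ∃ π ∈ C.gr (X.prod X) X.dim, IsProjector (W.gr X) j (W.act π)

/-- Properties 1 and 2 of a Bloch–Beilinson filtration, for the varieties with the
property `S`. -/
structure FilCore (W : WeilTheory.{u, v, w} C) (S : 𝒱.Obj → Prop) (F : Family C) : Prop where
  anti : ∀ X, S X → ∀ i k : ℕ, F X i (k + 1) ≤ F X i k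
  zero : ∀ X, S X → ∀ i : ℕ, F X i 0 = C.gr X i
  one : ∀ X, S X → ∀ (i : ℕ) (x : C.CH X), x ∈ F X i 1 ↔ HomTrivial W X i x
  top : ∀ X, S X → ∀ i : ℕ, F X i (i + 1) = ⊥

/-- The family `F` is a Bloch–Beilinson filtration (properties 1–5) on the Chow groups of the
varieties with the property `S`. -/
structure BBCore (W : WeilTheory.{u, v, w} C) (S : 𝒱.Obj → Prop) (F : Family C) : Prop extends
    FilCore W S F where
  mul : ∀ X, S X → ∀ i j k l : ℕ, ∀ x ∈ F X i k, ∀ y ∈ F X j l, x * y ∈ F X (i + j) (k + l)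
  pull : ∀ X Y, S X → S Y → ∀ (f : X ⟶ Y) (i k : ℕ), ∀ y ∈ F Y i k, C.pull f y ∈ F X i k
  push : ∀ X Y, S X → S Y → ∀ (f : X ⟶ Y) (i j k : ℕ), i + Y.dim = j + X.dim →
    ∀ x ∈ F X i k, C.push f x ∈ F Y j k
  corr : ∀ X, S X → ∀ i j k : ℕ, j + k = 2 * i → ∀ γ ∈ C.gr (X.prod X) X.dim, Kills W γ j →
    ∀ x ∈ F X i k, C.act γ x ∈ F X i (k + 1)

end Pool.Agent.T6.H15.BB
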