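import Pool.Agent.T6.H15.BB.Defs

/-!
# Criteria for the existence of Bloch–Beilinson filtrations: definitions
-/

open CategoryTheory CategoryTheory.Limits AlgebraicGeometry
open Pool.Agent.H914 Pool.Agent.H914.VarClass Pool.Agent.H914.VarClass.Obj Pool.Agent.R903

universe u v w

namespace Pool.Agent.T6.H15.BB

variable {k : Type u} [Field k] {𝒱 : VarClass k} {C : ChowTheory.{u, v} 𝒱}

/-- `Level W n Y j y` means that `y ∈ CH^j(Y)` is of the form `(γ_(n-1) ∘ ⋯ ∘ γ_1)_* x` with a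
homologically trivial class `x` in `CH^(i_1)(X_1)` and correspondences `γ_s` of arbitrary degrees
from `X_s` to `X_(s+1)`, mapping `CH^(i_s)(X_s)` to `CH^(i_(s+1))(X_(s+1))`, such that `γ_s` acts as
zero on `H^(2 i_s - s)(X_s)`; here `X_n = Y` and `i_n = j`. -/
inductive Level (W : WeilTheory.{u, v, w} C) : ℕ → ∀ Y : 𝒱.Obj, ℕ → C.CH Y → Prop
  | one {X : 𝒱.Obj} {i : ℕ} {x : C.CH X} (h : HomTrivial W X i x) : Level W 1 X i x
  | succ {n : ℕ} {Y : 𝒱.Obj} {j : ℕ} {y : C.CH Y} (h : Level W n Y j y) {Z : 𝒱.Obj} {l c : ℕ}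
      {γ : C.CH (Y.prod Z)} (hγ : InCH C (Y.prod Z) c γ) (hc : j + c = l + Y.dim)
      (h0 : ∀ m, m + n = 2 * j → Kills W γ m) : Level W (n + 1) Z l (corrAct C γ y)

/-- `(γ_(n-1) ∘ ⋯ ∘ γ_1)_* x = 0` in `CH^j(Y)` if `n > j`, for correspondences as in `Level`. -/
def ChainsVanish (W : WeilTheory.{u, v, w} C) : Prop :=
  ∀ (n : ℕ) (Y : 𝒱.Obj) (j : ℕ) (y : C.CH Y), Level W n Y j y → j < n → y = 0

/-- For all `i`, an idempotent `p` in `CH^(dim X)(X × X)` which acts as zero on `H^j(X)` for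
`i ≤ j < 2i` acts as zero on the homologically trivial classes in `CH^i(X)`. -/
def IdempotentsVanish (W : WeilTheory.{u, v, w} C) (X : 𝒱.Obj) : Prop :=
  ∀ (i : ℕ) (p : C.CH (X.prod X)), IsSelfCorr C X p → C.comp p p = p →
    (∀ j, i ≤ j → j < 2 * i → Kills W p j) → ∀ x, HomTrivial W X i x → corrAct C p x = 0

/-- For all `i`, a homologically trivial class `x` in `CH^i(X)` with `γ_* x = x` for some `γ` in
`CH^(dim X)(X × X)` which acts as zero on `H^j(X)` for `i ≤ j < 2i` is zero. -/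
def NoFixedClasses (W : WeilTheory.{u, v, w} C) (X : 𝒱.Obj) : Prop :=
  ∀ (i : ℕ) (γ : C.CH (X.prod X)), IsSelfCorr C X γ → (∀ j, i ≤ j → j < 2 * i → Kills W γ j) →
    ∀ x, HomTrivial W X i x → corrAct C γ x = x → x = 0

/-- `δ` is a degree operator of `X`: a correspondence in `CH^(dim X)(X × X)` which acts on `H^j(X)` as
multiplication by `j`, for all `j`. -/
def IsDegreeOp (W : WeilTheory.{u, v, w} C) (X : 𝒱.Obj) (δ : C.CH (X.prod X)) : Prop :=
  IsSelfCorr C X δ ∧ ActsAsDegree (W.gr X) (W.act δ)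

/-- For all `i`, the rational eigenvalues of the degree operators of `X` on the homologically
trivial classes in `CH^i(X)` are among `i, …, 2i - 1`. -/
def EigenvaluesBounded (W : WeilTheory.{u, v, w} C) (X : 𝒱.Obj) : Prop :=
  ∀ δ : C.CH (X.prod X), IsDegreeOp W X δ → ∀ (i : ℕ) (c : ℚ) (x : C.CH X), HomTrivial W X i x →
    x ≠ 0 → corrAct C δ x = c • x → ∃ j : ℕ, i ≤ j ∧ j < 2 * i ∧ c = j

end Pool.Agent.T6.H15.BB
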