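import Pool.Agent.T6.H15.BB.Poly
import Pool.Agent.T6.H15.BB.CoreDefs
import Pool.Agent.T6.H15.BB.CritDefs

/-!
# Eigenvalues of degree operators and Chow–Künneth decompositions
-/

open CategoryTheory CategoryTheory.Limits AlgebraicGeometry Polynomial
open Pool.Agent.H914 Pool.Agent.H914.VarClass Pool.Agent.H914.VarClass.Obj Pool.Agent.R903
open Pool.Agent.R903.WeilTheory

universe u v w

namespace Pool.Agent.T6.H15.BB

variable {k : Type u} [Field k] {𝒱 : VarClass k} {C : ChowTheory.{u, v} 𝒱}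

lemma HomTrivial.cl {W : WeilTheory.{u, v, w} C} {X : 𝒱.Obj} {i : ℕ} {x : C.CH X}
    (hx : HomTrivial W X i x) : W.cl X x = 0 := hx.2

lemma homTrivial_mk {W : WeilTheory.{u, v, w} C} {X : 𝒱.Obj} {i : ℕ} {x : C.CH X}
    (h1 : x ∈ C.gr X i) (h2 : W.cl X x = 0) : HomTrivial W X i x := ⟨h1, h2⟩

lemma HomTrivial.act {W : WeilTheory.{u, v, w} C} {X Y : 𝒱.Obj} {i j c : ℕ} {x : C.CH X}
    (hx : HomTrivial W X i x) {γ : C.CH (X.prod Y)} (hγ : γ ∈ C.gr (X.prod Y) c)
    (h : i + c = j + X.dim) : HomTrivial W Y j (C.act γ x) :=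
  homTrivial_mk (C.act_mem hγ hx.1 h) (by rw [W.cl_act, hx.cl, map_zero])

/-- The eigenvalues of degree operators on homologically trivial classes in `CH^i` lie between
`i` and `2i - 1`. -/
def EigOn (W : WeilTheory.{u, v, w} C) (S : 𝒱.Obj → Prop) : Prop :=
  ∀ X, S X → ∀ δ, W.IsDegree X δ → ∀ i c : ℕ, (c < i ∨ 2 * i ≤ c) → ∀ x, HomTrivial W X i x →
    C.act δ x = (c : ℚ) • x → x = 0

/-- Chow–Künneth decompositions exist, and `π b` kills the homologically trivial classes in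
`CH^i` unless `i ≤ b < 2i`. -/
structure GoodOn (W : WeilTheory.{u, v, w} C) (S : 𝒱.Obj → Prop) : Prop where
  ck : ∀ X, S X → W.HasCK X
  van : ∀ X, S X → ∀ π, W.IsCK X π → ∀ i b : ℕ, (b < i ∨ 2 * i ≤ b) →
    ∀ x, HomTrivial W X i x → C.act (π b) x = 0

theorem EigOn.good {W : WeilTheory.{u, v, w} C} {S : 𝒱.Obj → Prop}
    (hS : ∀ X Y, S X → S Y → S (X.prod Y)) (hK : KunnethOn W S) (hE : EigOn W S) :
    GoodOn W S where
  ck X hX := by
    obtain ⟨δ, hδ⟩ := exists_isDegree (hK X hX)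
    have h0 : HomTrivial W (X.prod X) X.dim
        (polyC C δ (nodes (Finset.range (2 * X.dim + 1)))) := by
      refine ⟨polyC_mem hδ.1 _, cl_eq_zero W fun j a ha => ?_⟩
      rw [actH_polyC hδ _ ha]
      by_cases hj : j ∈ Finset.range (2 * X.dim + 1)
      · rw [eval_nodes_eq_zero hj]; simp
      · rw [Finset.mem_range, not_lt] at hj
        rw [W.gr_eq_bot X j (by omega), Submodule.mem_bot] at ha
        rw [ha, smul_zero]
    have h1 : C.act (WeilTheory.degHom C δ δ)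
        (polyC C δ (nodes (Finset.range (2 * X.dim + 1)))) =
        ((2 * X.dim : ℕ) : ℚ) • polyC C δ (nodes (Finset.range (2 * X.dim + 1))) := by
      set p := nodes (Finset.range (2 * X.dim + 1))
      have h2 : C.comp δ (polyC C δ p) = C.comp (polyC C δ p) δ := by
        conv_lhs => rw [← polyC_X (C := C) δ, polyC_X, ]
        have e1 : C.comp (polyC C δ Polynomial.X) (polyC C δ p) =
          C.comp (polyC C δ p) (polyC C δ Polynomial.X) := by
          rw [← polyC_mul, ← polyC_mul']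
        rwa [polyC_X] at e1
      rw [WeilTheory.degHom, C.act_add, C.act_sub, C.act_smul, LinearMap.add_apply,
        LinearMap.sub_apply, LinearMap.smul_apply, C.act_diagC, C.act_opR, C.act_opL, h2,
        sub_add_cancel]
      push_cast
      rfl
    have h2 := hE _ (hS X X hX hX) _ (W.isDegree_degHom hδ hδ) X.dim (2 * X.dim) (Or.inr le_rfl) _
      h0 h1
    exact ⟨_, isCK_of_poly hδ h2⟩
  van X hX π hπ i b hb x hx := by
    refine hE X hX _ (isDegree_degCK hπ) i b hb _ (hx.act (hπ.mem b) rfl) ?_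
    exact act_degCK hπ b x

/-! ### the converse: good decompositions -/

variable {W : WeilTheory.{u, v, w} C} {X Y Z : 𝒱.Obj}

/-- a block of a correspondence is fixed by a component of the product decomposition -/
lemma act_prodCK_block' {π : ℕ → C.CH (X.prod X)} {ρ : ℕ → C.CH (Y.prod Y)} (h : W.IsCK X π)
    (h' : W.IsCK Y ρ) {a : ℕ} (ha : a ≤ 2 * X.dim) (b : ℕ) (γ : C.CH (X.prod Y)) :
    C.act (prodCK C (transCK C π) ρ (2 * X.dim - a + b))
      (C.comp (C.comp (π a) γ) (ρ b)) = C.comp (C.comp (π a) γ) (ρ b) := by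
  rw [prodCK, act_sum_apply]
  rw [Finset.sum_eq_single (2 * X.dim - a, b)]
  · have ha : 2 * X.dim - a ≤ 2 * X.dim := Nat.sub_le _ _
    have ha2 : 2 * X.dim - (2 * X.dim - a) = a := by omega
    rw [transCK, if_pos ha, C.act_tensor, ha2, ← C.comp_assoc, ← C.comp_assoc, h.idem,
      C.comp_assoc, h'.idem]
  · rintro ⟨p, q⟩ _ hne
    rw [transCK]
    split_ifs with hp
    · rw [C.act_tensor]
      by_cases hpa : 2 * X.dim - p = a
      · have hqb : b ≠ q := by
          rintro rfl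
          apply hne
          have hp : p = 2 * X.dim - a := by
            dsimp only at *
            omega
          rw [hp]
        rw [C.comp_assoc, C.comp_assoc, h'.orth b q hqb, C.comp_zero, C.comp_zero]
      · rw [← C.comp_assoc, ← C.comp_assoc, h.orth _ _ hpa, C.zero_comp, C.zero_comp,
          C.zero_comp]
    · rw [C.zero_tensor, C.act_zero, LinearMap.zero_apply]
  · intro hnot
    exact (hnot (Finset.HasAntidiagonal.mem_antidiagonal.2 rfl)).elim

variable {S : 𝒱.Obj → Prop}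

/-- classes of the wrong weight vanish -/
lemma GoodOn.van' (hG : GoodOn W S) {X : 𝒱.Obj} (hX : S X) {π : ℕ → C.CH (X.prod X)}
    (hπ : W.IsCK X π) {i b : ℕ} (hb : 2 * i < b) {x : C.CH X} (hx : x ∈ C.gr X i) :
    C.act (π b) x = 0 := by
  have h1 : HomTrivial W X i (C.act (π b) x) := by
    refine homTrivial_mk (C.act_mem (hπ.mem b) hx rfl) ?_
    rw [W.cl_act, hπ.proj b _ _ (W.cl_mem hx), if_neg (by omega)]
  have h2 := hG.van X hX π hπ i b (Or.inr hb.le) _ h1
  rwa [hπ.act_act, if_pos rfl] at h2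

/-- The blocks of correspondences which raise the weight vanish, and so do the homologically
trivial blocks which preserve the weight. -/
lemma GoodOn.block (hS : ∀ X Y, S X → S Y → S (X.prod Y)) (hG : GoodOn W S) {X Y : 𝒱.Obj}
    (hX : S X) (hY : S Y) {π : ℕ → C.CH (X.prod X)} {ρ : ℕ → C.CH (Y.prod Y)} (h : W.IsCK X π)
    (h' : W.IsCK Y ρ) {a b c : ℕ} (ha : a ≤ 2 * X.dim) {γ : C.CH (X.prod Y)}
    (hγ : γ ∈ C.gr (X.prod Y) c)
    (hc : 2 * c + a < 2 * X.dim + b ∨ (2 * c + a = 2 * X.dim + b ∧ Kills W γ a)) :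
    C.comp (C.comp (π a) γ) (ρ b) = 0 := by
  have hCK := h.transp.prod h'
  have hmem : C.comp (C.comp (π a) γ) (ρ b) ∈ C.gr (X.prod Y) c :=
    C.comp_mem (C.comp_mem (h.mem a) hγ (add_comm _ _)) (h'.mem b) rfl
  rcases hc with hc | ⟨hc, h0⟩
  · have h1 := hG.van' (hS X Y hX hY) hCK (i := c) (b := 2 * X.dim - a + b) (by omega) hmem
    rwa [act_prodCK_block' h h' ha] at h1
  · have hcl : W.cl _ (C.comp (C.comp (π a) γ) (ρ b)) = 0 := by
      refine cl_eq_zero W fun j v hv => ?_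
      rw [W.act_comp _ (h'.mem b), W.act_comp _ hγ, h.proj a j v hv]
      split_ifs with hj
      · subst hj
        rw [h0 v hv, map_zero]
      · rw [map_zero, map_zero]
    have h1 := hG.van _ (hS X Y hX hY) _ hCK c (2 * X.dim - a + b) (Or.inr (by omega)) _
      ⟨hmem, hcl⟩
    rwa [act_prodCK_block' h h' ha] at h1

/-- Correspondences of any degree respect the filtrations, and lower them if they act as zero on
the relevant cohomology group. -/
lemma GoodOn.act_mem (hS : ∀ X Y, S X → S Y → S (X.prod Y)) (hG : GoodOn W S) {X Y : 𝒱.Obj}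
    (hX : S X) (hY : S Y) {π : ℕ → C.CH (X.prod X)} {ρ : ℕ → C.CH (Y.prod Y)} (h : W.IsCK X π)
    (h' : W.IsCK Y ρ) {i j c m : ℕ} {γ : C.CH (X.prod Y)} (hγ : γ ∈ C.gr (X.prod Y) c)
    (hc : i + c = j + X.dim) {x : C.CH X} (hx : x ∈ C.ckFil π i m) :
    C.act γ x ∈ C.ckFil ρ j m ∧
      ((∀ l, l + m = 2 * i → Kills W γ l) → C.act γ x ∈ C.ckFil ρ j (m + 1)) := by
  rw [mem_ckFil h] at hx
  have key : ∀ b, C.act (ρ b) (C.act γ x) =
      ∑ a ∈ Finset.range (2 * X.dim + 1), C.act (C.comp (C.comp (π a) γ) (ρ b)) x := by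
    intro b
    conv_lhs => rw [← h.sum_act x]
    rw [map_sum, map_sum]
    refine Finset.sum_congr rfl fun a _ => ?_
    rw [C.act_comp, C.act_comp]
  constructor
  · rw [mem_ckFil h']
    refine ⟨C.act_mem hγ hx.1 hc, fun b hb => ?_⟩
    rw [key]
    refine Finset.sum_eq_zero fun a ha => ?_
    rw [Finset.mem_range] at ha
    by_cases ham : 2 * i < a + m
    · rw [C.act_comp, C.act_comp, hx.2 a ham, map_zero, map_zero]
    · rw [hG.block hS hX hY h h' (by omega) hγ (Or.inl (by omega)), C.act_zero,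
        LinearMap.zero_apply]
  · intro h0
    rw [mem_ckFil h']
    refine ⟨C.act_mem hγ hx.1 hc, fun b hb => ?_⟩
    rw [key]
    refine Finset.sum_eq_zero fun a ha => ?_
    rw [Finset.mem_range] at ha
    by_cases ham : 2 * i < a + m
    · rw [C.act_comp, C.act_comp, hx.2 a ham, map_zero, map_zero]
    · by_cases hab : 2 * c + a < 2 * X.dim + b
      · rw [hG.block hS hX hY h h' (by omega) hγ (Or.inl hab), C.act_zero, LinearMap.zero_apply]
      · rw [hG.block hS hX hY h h' (by omega) hγ (Or.inr ⟨by omega, h0 a (by omega)⟩),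
          C.act_zero, LinearMap.zero_apply]

/-- Independence of the decomposition. -/
lemma GoodOn.indep (hS : ∀ X Y, S X → S Y → S (X.prod Y)) (hG : GoodOn W S) {X : 𝒱.Obj}
    (hX : S X) {π ρ : ℕ → C.CH (X.prod X)} (h : W.IsCK X π) (h' : W.IsCK X ρ) (i m : ℕ) :
    C.ckFil π i m = C.ckFil ρ i m := by
  have key : ∀ {π ρ : ℕ → C.CH (X.prod X)}, W.IsCK X π → W.IsCK X ρ →
      C.ckFil π i m ≤ C.ckFil ρ i m := by
    intro π ρ h h' x hx
    have := (hG.act_mem hS hX hX h h' (C.diagC_mem X) rfl hx).1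
    rwa [C.act_diagC] at this
  exact le_antisymm (key h h') (key h' h)

lemma act_prodCK_ext {π : ℕ → C.CH (X.prod X)} {ρ : ℕ → C.CH (Y.prod Y)} (m : ℕ)
    (x : C.CH X) (y : C.CH Y) :
    C.act (prodCK C π ρ m) (C.ext x y) =
      ∑ p ∈ Finset.HasAntidiagonal.antidiagonal m, C.ext (C.act (π p.1) x) (C.act (ρ p.2) y) := by
  rw [prodCK, act_sum_apply]
  refine Finset.sum_congr rfl fun p _ => ?_
  rw [C.tensor_eq, C.act_comp, C.act_opM_ext, C.act_opL_ext]

lemma ext_zero_left (y : C.CH Y) : C.ext (0 : C.CH X) y = 0 := by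
  rw [ChowTheory.ext, map_zero, zero_mul]

lemma ext_zero_right (x : C.CH X) : C.ext x (0 : C.CH Y) = 0 := by
  rw [ChowTheory.ext, map_zero, mul_zero]

lemma ext_mem_ckFil {π : ℕ → C.CH (X.prod X)} {ρ : ℕ → C.CH (Y.prod Y)} (h : W.IsCK X π)
    (h' : W.IsCK Y ρ) {i j m n : ℕ} {x : C.CH X} {y : C.CH Y} (hx : x ∈ C.ckFil π i m)
    (hy : y ∈ C.ckFil ρ j n) : C.ext x y ∈ C.ckFil (prodCK C π ρ) (i + j) (m + n) := by
  rw [mem_ckFil h] at hx
  rw [mem_ckFil h'] at hy
  rw [mem_ckFil (h.prod h')]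
  refine ⟨C.ext_mem hx.1 hy.1, fun b hb => ?_⟩
  rw [act_prodCK_ext]
  refine Finset.sum_eq_zero fun p hp => ?_
  rw [Finset.HasAntidiagonal.mem_antidiagonal] at hp
  by_cases h1 : 2 * i < p.1 + m
  · rw [hx.2 _ h1, ext_zero_left]
  · rw [hy.2 p.2 (by omega), ext_zero_right]

lemma GoodOn.mul_mem (hS : ∀ X Y, S X → S Y → S (X.prod Y)) (hG : GoodOn W S) {X : 𝒱.Obj}
    (hX : S X) {π : ℕ → C.CH (X.prod X)} (h : W.IsCK X π) {i j m n : ℕ} {x y : C.CH X}
    (hx : x ∈ C.ckFil π i m) (hy : y ∈ C.ckFil π j n) :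
    x * y ∈ C.ckFil π (i + j) (m + n) := by
  rw [← C.pull_diag_ext, ← C.act_cograph]
  exact (hG.act_mem hS (hS X X hX hX) hX (h.prod h) h (C.cograph_mem (Obj.diag X)) rfl
    (ext_mem_ckFil h h hx hy)).1

lemma ckFil_anti {π : ℕ → C.CH (X.prod X)} (h : W.IsCK X π) {i m n : ℕ} (hmn : m ≤ n) :
    C.ckFil π i n ≤ C.ckFil π i m := by
  intro x hx
  rw [mem_ckFil h] at hx ⊢
  exact ⟨hx.1, fun b hb => hx.2 b (by omega)⟩

lemma GoodOn.ckFil_zero (hG : GoodOn W S) (hX : S X) {π : ℕ → C.CH (X.prod X)}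
    (h : W.IsCK X π) (i : ℕ) : C.ckFil π i 0 = C.gr X i := by
  rw [ckFil_zero_eq_iff h]
  intro b hb x hx
  exact hG.van' hX h hb hx

lemma GoodOn.ckFil_one (hG : GoodOn W S) (hX : S X) {π : ℕ → C.CH (X.prod X)}
    (h : W.IsCK X π) (i : ℕ) (x : C.CH X) : x ∈ C.ckFil π i 1 ↔ HomTrivial W X i x := by
  rw [mem_ckFil h]
  constructor
  · rintro ⟨hx, h0⟩
    refine homTrivial_mk hx ?_
    have h1 := h.proj (2 * i) _ _ (W.cl_mem hx)
    rw [if_pos rfl] at h1
    rw [← h1, ← W.cl_act, h0 (2 * i) (by omega), map_zero]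
  · intro hx
    exact ⟨hx.1, fun b hb => hG.van X hX π h i b (Or.inr (by omega)) x hx⟩

lemma GoodOn.ckFil_top (hG : GoodOn W S) (hX : S X) {π : ℕ → C.CH (X.prod X)}
    (h : W.IsCK X π) (i : ℕ) : C.ckFil π i (i + 1) = ⊥ := by
  rw [eq_bot_iff]
  intro x hx
  have h1 := (hG.ckFil_one hX h i x).1 (ckFil_anti h (by omega) hx)
  rw [mem_ckFil h] at hx
  rw [Submodule.mem_bot, ← h.sum_act x]
  refine Finset.sum_eq_zero fun b _ => ?_
  by_cases hb : b < i
  · exact hG.van X hX π h i b (Or.inl hb) x h1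
  · exact hx.2 b (by omega)

/-- The vanishing of the filtrations, from the properties of the filtration. -/
lemma van_of_ckFil {π : ℕ → C.CH (X.prod X)} (h : W.IsCK X π)
    (h1 : ∀ i x, HomTrivial W X i x → x ∈ C.ckFil π i 1) (h2 : ∀ i, C.ckFil π i (i + 1) = ⊥)
    {i b : ℕ} (hb : b < i ∨ 2 * i ≤ b) {x : C.CH X} (hx : HomTrivial W X i x) :
    C.act (π b) x = 0 := by
  rcases hb with hb | hb
  · have h3 : C.act (π b) x ∈ C.ckFil π i (i + 1) := by
      rw [mem_ckFil h]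
      refine ⟨C.act_mem (h.mem b) hx.1 rfl, fun a ha => ?_⟩
      rw [h.act_act, if_neg (by omega)]
    rwa [h2, Submodule.mem_bot] at h3
  · exact ((mem_ckFil h).1 (h1 i x hx)).2 b (by omega)

/-- Chains of correspondences lower the filtration. -/
lemma GoodOn.level (hS : ∀ X Y, S X → S Y → S (X.prod Y)) (hG : GoodOn W S)
    (hall : ∀ Y, S Y) {n j : ℕ} {y : C.CH Y} (hy : Level W n Y j y) :
    ∀ ρ : ℕ → C.CH (Y.prod Y), W.IsCK Y ρ → y ∈ C.ckFil ρ j n := by
  induction hy with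
  | one h =>
    intro ρ hρ
    exact (hG.ckFil_one (hall _) hρ _ _).2 h
  | @succ n Y j y hy Z l c γ hγ hc h0 ih =>
    intro ρ hρ
    obtain ⟨σ, hσ⟩ := hG.ck Y (hall Y)
    exact (hG.act_mem hS (hall Y) (hall Z) hσ hρ hγ hc (ih σ hσ)).2 h0

end Pool.Agent.T6.H15.BB
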