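import Pool.Agent.T6.H15.BB.Up

/-!
# The Chow–Künneth decomposition of a curve
-/

open CategoryTheory CategoryTheory.Limits AlgebraicGeometry Polynomial
open Pool.Agent.H914 Pool.Agent.H914.VarClass Pool.Agent.H914.VarClass.Obj Pool.Agent.R903
open Pool.Agent.R903.WeilTheory

universe u v w

namespace Pool.Agent.T6.H15.BB

variable {k : Type u} [Field k] {𝒱 : VarClass k} {C : ChowTheory.{u, v} 𝒱}
  {W : WeilTheory.{u, v, w} C} {X Y Z E : 𝒱.Obj}

lemma sub_comp (α α' : C.CH (X.prod Y)) (β : C.CH (Y.prod Z)) :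
    C.comp (α - α') β = C.comp α β - C.comp α' β := by
  simp [ChowTheory.comp, sub_mul]

lemma comp_sub (α : C.CH (X.prod Y)) (β β' : C.CH (Y.prod Z)) :
    C.comp α (β - β') = C.comp α β - C.comp α β' := by
  simp [ChowTheory.comp, mul_sub]

lemma ext_comp (x : C.CH X) (y : C.CH Y) (w : C.CH (Y.prod Y)) :
    C.comp (C.ext x y) w = C.ext x (C.act w y) := by
  rw [← C.act_opL, C.act_opL_ext]

lemma ext_comp_ext (x : C.CH X) (y y' z : C.CH Y) :
    C.comp (C.ext x y) (C.ext y' z) = C.deg Y (y * y') • C.ext x z := by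
  rw [ext_comp, C.act_ext, ext_smul_right]

/-- the projector `π_1` of a curve -/
noncomputable def curveProj (C : ChowTheory.{u, v} 𝒱) {E : 𝒱.Obj} (e : C.CH E) :
    C.CH (E.prod E) := C.diagC E - C.ext e 1 - C.ext 1 e

/-- the Chow–Künneth decomposition of a curve -/
noncomputable def curveCK (C : ChowTheory.{u, v} 𝒱) {E : 𝒱.Obj} (e : C.CH E) :
    ℕ → C.CH (E.prod E)
  | 0 => C.ext e 1
  | 1 => curveProj C e
  | 2 => C.ext 1 e
  | _ + 3 => 0

theorem isCK_curveCK (hE : E.dim = 1) {e : C.CH E} (he : e ∈ C.gr E 1) (hd : C.deg E e = 1) :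
    W.IsCK E (curveCK C e) := by
  have h2 : e * e = 0 := by
    have := C.mul_mem he he
    rwa [C.gr_eq_bot E _ (by omega), Submodule.mem_bot] at this
  have hd1 : C.deg E 1 = 0 := deg_eq_zero W (C.one_mem E) (by omega)
  have h00 : C.comp (C.ext e (1 : C.CH E)) (C.ext e (1 : C.CH E)) = C.ext e (1 : C.CH E) := by
    rw [ext_comp_ext, one_mul, hd, one_smul]
  have h22 : C.comp (C.ext (1 : C.CH E) e) (C.ext (1 : C.CH E) e) = C.ext (1 : C.CH E) e := by
    rw [ext_comp_ext, mul_one, hd, one_smul]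
  have h02 : C.comp (C.ext e (1 : C.CH E)) (C.ext (1 : C.CH E) e) = 0 := by
    rw [ext_comp_ext, mul_one, hd1, zero_smul]
  have h20 : C.comp (C.ext (1 : C.CH E) e) (C.ext e (1 : C.CH E)) = 0 := by
    rw [ext_comp_ext, h2, map_zero, zero_smul]
  have hm0 : C.ext e (1 : C.CH E) ∈ C.gr (E.prod E) E.dim := by
    have := C.ext_mem he (C.one_mem E); rwa [hE]
  have hm2 : C.ext (1 : C.CH E) e ∈ C.gr (E.prod E) E.dim := by
    have := C.ext_mem (C.one_mem E) he; rwa [hE]
  have key : ∀ i j, C.comp (curveCK C e i) (curveCK C e j) =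
      if i = j then curveCK C e i else 0 := by
    intro i j
    match i, j with
    | 0, 0 => rw [if_pos rfl]; exact h00
    | 0, 1 =>
      rw [if_neg (by omega)]
      change C.comp (C.ext e (1 : C.CH E)) (C.diagC E - C.ext e (1 : C.CH E) - C.ext (1 : C.CH E) e) = 0
      rw [comp_sub, comp_sub, C.comp_diagC, h00, h02, sub_self, sub_zero]
    | 0, 2 => rw [if_neg (by omega)]; exact h02
    | 1, 0 =>
      rw [if_neg (by omega)]
      change C.comp (C.diagC E - C.ext e (1 : C.CH E) - C.ext (1 : C.CH E) e) (C.ext e (1 : C.CH E)) = 0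
      rw [sub_comp, sub_comp, C.diagC_comp, h00, h20, sub_self, sub_zero]
    | 1, 1 =>
      rw [if_pos rfl]
      change C.comp (C.diagC E - C.ext e (1 : C.CH E) - C.ext (1 : C.CH E) e) (C.diagC E - C.ext e (1 : C.CH E) - C.ext (1 : C.CH E) e) =
        C.diagC E - C.ext e (1 : C.CH E) - C.ext (1 : C.CH E) e
      rw [sub_comp, sub_comp, C.diagC_comp, comp_sub, comp_sub, comp_sub, comp_sub, C.comp_diagC,
        C.comp_diagC, h00, h02, h20, h22]
      abel
    | 1, 2 =>
      rw [if_neg (by omega)]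
      change C.comp (C.diagC E - C.ext e (1 : C.CH E) - C.ext (1 : C.CH E) e) (C.ext (1 : C.CH E) e) = 0
      rw [sub_comp, sub_comp, C.diagC_comp, h02, h22, sub_zero, sub_self]
    | 2, 0 => rw [if_neg (by omega)]; exact h20
    | 2, 1 =>
      rw [if_neg (by omega)]
      change C.comp (C.ext (1 : C.CH E) e) (C.diagC E - C.ext e (1 : C.CH E) - C.ext (1 : C.CH E) e) = 0
      rw [comp_sub, comp_sub, C.comp_diagC, h20, h22, sub_zero, sub_self]
    | 2, 2 => rw [if_pos rfl]; exact h22
    | n + 3, j =>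
      have : curveCK C e (n + 3) = 0 := rfl
      rw [this, C.zero_comp]; split_ifs <;> rfl
    | 0, n + 3 =>
      have : curveCK C e (n + 3) = 0 := rfl
      rw [this, C.comp_zero, if_neg (by omega)]
    | 1, n + 3 =>
      have : curveCK C e (n + 3) = 0 := rfl
      rw [this, C.comp_zero, if_neg (by omega)]
    | 2, n + 3 =>
      have : curveCK C e (n + 3) = 0 := rfl
      rw [this, C.comp_zero, if_neg (by omega)]
  have hee : W.tr E (W.cl E e) = 1 := by rw [W.tr_cl, hd, Rat.cast_one]
  have hp0 : ∀ l, ∀ a ∈ W.gr E l, W.act (C.ext e (1 : C.CH E)) a = if l = 0 then a else 0 := by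
    intro l a ha
    rw [act_ext_H e (C.one_mem E), map_one]
    by_cases hl : l = 0
    · subst hl
      obtain ⟨c, rfl⟩ := mem_gr_zero ha
      rw [mul_smul_comm, mul_one, map_smul, hee, if_pos rfl, smul_eq_mul, mul_one]
    · rw [W.tr_eq_zero (W.mul_mem (W.cl_mem he) ha) (by omega), if_neg hl, zero_smul]
  have hp2 : ∀ l, ∀ a ∈ W.gr E l, W.act (C.ext (1 : C.CH E) e) a = if l = 2 then a else 0 := by
    intro l a ha
    rw [act_ext_H 1 he, map_one, one_mul]
    by_cases hl : l = 2
    · subst hl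
      rw [if_pos rfl, ← sub_eq_zero]
      apply eq_zero_of_tr
      · rw [hE]
        exact Submodule.sub_mem _ (Submodule.smul_mem _ _ (W.cl_mem he)) ha
      · rw [map_sub, map_smul, hee, smul_eq_mul, mul_one, sub_self]
    · rw [W.tr_eq_zero ha (by omega), if_neg hl, zero_smul]
  refine ⟨fun j => ?_, fun j => ?_, fun i j hij => ?_, ?_, fun j l a ha => ?_⟩
  · match j with
    | 0 => exact hm0
    | 1 => exact Submodule.sub_mem _ (Submodule.sub_mem _ (C.diagC_mem E) hm0) hm2
    | 2 => exact hm2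
    | n + 3 => exact Submodule.zero_mem _
  · rw [key, if_pos rfl]
  · rw [key, if_neg hij]
  · rw [hE]
    change ∑ j ∈ Finset.range 3, curveCK C e j = _
    rw [Finset.sum_range_succ, Finset.sum_range_succ, Finset.sum_range_succ,
      Finset.sum_range_zero]
    change 0 + C.ext e (1 : C.CH E) + (C.diagC E - C.ext e (1 : C.CH E) - C.ext (1 : C.CH E) e) + C.ext (1 : C.CH E) e = C.diagC E
    abel
  · match j with
    | 0 => exact hp0 l a ha
    | 1 =>
      change W.act (C.diagC E - C.ext e (1 : C.CH E) - C.ext (1 : C.CH E) e) a = _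
      rw [W.act_sub, W.act_sub, LinearMap.sub_apply, LinearMap.sub_apply, W.act_diagC,
        hp0 l a ha, hp2 l a ha]
      rcases Nat.lt_or_ge 2 l with h | h
      · rw [W.gr_eq_bot E l (by omega), Submodule.mem_bot] at ha
        rw [ha]; simp
      interval_cases l <;> simp
    | 2 => exact hp2 l a ha
    | n + 3 =>
      change W.act (0 : C.CH (E.prod E)) a = _
      rw [W.act_zero, LinearMap.zero_apply]
      rcases Nat.lt_or_ge 2 l with h | h
      · rw [W.gr_eq_bot E l (by omega), Submodule.mem_bot] at ha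
        rw [ha]; simp
      · rw [if_neg (by omega)]

lemma transp_ext (x : C.CH X) (y : C.CH Y) : C.transp (C.ext x y) = C.ext y x := by
  rw [ChowTheory.transp, ChowTheory.ext, C.pull_mul, ← C.pull_comp, ← C.pull_comp, swap_fst,
    swap_snd, mul_comm, ChowTheory.ext]

lemma transp_sub (x y : C.CH (X.prod Y)) : C.transp (x - y) = C.transp x - C.transp y :=
  map_sub _ _ _

/-- the Chow–Künneth decomposition of a curve is self-dual -/
lemma transCK_curveCK (hE : E.dim = 1) (e : C.CH E) :
    transCK C (curveCK C e) = curveCK C e := by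
  funext j
  rw [transCK, hE]
  match j with
  | 0 =>
    rw [if_pos (by omega)]
    change C.transp (C.ext (1 : C.CH E) e) = C.ext e (1 : C.CH E)
    exact transp_ext _ _
  | 1 =>
    rw [if_pos (by omega)]
    change C.transp (C.diagC E - C.ext e (1 : C.CH E) - C.ext (1 : C.CH E) e) = C.diagC E - C.ext e (1 : C.CH E) - C.ext (1 : C.CH E) e
    rw [transp_sub, transp_sub, C.transp_diagC, transp_ext, transp_ext]
    abel
  | 2 =>
    rw [if_pos (by omega)]
    change C.transp (C.ext e (1 : C.CH E)) = C.ext (1 : C.CH E) e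
    exact transp_ext _ _
  | n + 3 =>
    rw [if_neg (by omega)]
    rfl

end Pool.Agent.T6.H15.BB
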