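import Pool.Agent.R903.MurreDefs

/-!
# Bloch–Beilinson filtrations: definitions

The Chow theories `C`, the Weil cohomology theories `W` and the Chow–Künneth decompositions are
those of the starting files `Pool.Agent.R903.Chow`, `Pool.Agent.R903.Corr` and
`Pool.Agent.R903.MurreDefs`.
-/

open CategoryTheory CategoryTheory.Limits AlgebraicGeometry
open Pool.Agent.H914 Pool.Agent.H914.VarClass Pool.Agent.H914.VarClass.Obj Pool.Agent.R903

universe u v w

namespace Pool.Agent.T6.H15.BB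

section Alg

variable {A : Type v} [CommRing A] [Algebra ℚ A] {B : Type v} [CommRing B] [Algebra ℚ B]

/-- `x ∈ S`, for a subspace `S` of the algebra `A`. -/
def MemSub (S : Submodule ℚ A) (x : A) : Prop := x ∈ S

/-- The value `T(x)` of a linear map. -/
def applyLin (T : A →ₗ[ℚ] B) (x : A) : B := T x

/-- The value `T(x)` of an algebra homomorphism. -/
def applyHom (T : A →ₐ[ℚ] B) (x : A) : B := T x

/-- The homomorphism `f` maps `x` to zero. -/
def MapsToZero {H : Type w} [Ring H] (f : A →+* H) (x : A) : Prop := f x = 0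

/-- The linear map `T` is zero on the subspace `S`. -/
def ZeroOn {K : Type w} [Field K] {V : Type w} [AddCommGroup V] [Module K V] {V' : Type w}
    [AddCommGroup V'] [Module K V'] (S : Submodule K V) (T : V →ₗ[K] V') : Prop :=
  ∀ a ∈ S, T a = 0

end Alg

variable {k : Type u} [Field k] {𝒱 : VarClass k} {C : ChowTheory.{u, v} 𝒱}

/-- `x` lies in `CH^i(X)`. -/
def InCH (C : ChowTheory.{u, v} 𝒱) (X : 𝒱.Obj) (i : ℕ) (x : C.CH X) : Prop := MemSub (C.gr X i) x

/-- `γ` lies in `CH^(dim X)(X × X)`: it is a correspondence of degree zero from `X` to `X`. -/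
def IsSelfCorr (C : ChowTheory.{u, v} 𝒱) (X : 𝒱.Obj) (γ : C.CH (X.prod X)) : Prop :=
  InCH C (X.prod X) X.dim γ

/-- The class `γ_* x`, for a correspondence `γ` from `X` to `Y`. -/
noncomputable def corrAct (C : ChowTheory.{u, v} 𝒱) {X Y : 𝒱.Obj} (γ : C.CH (X.prod Y))
    (x : C.CH X) : C.CH Y := applyLin (C.act γ) x

/-- `x` is a homologically trivial class in `CH^i(X)`. -/
def HomTrivial (W : WeilTheory.{u, v, w} C) (X : 𝒱.Obj) (i : ℕ) (x : C.CH X) : Prop :=
  InCH C X i x ∧ MapsToZero (W.cl X) x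

/-- The correspondence `γ` from `X` to `Y` acts as zero on `H^j(X)`. -/
def Kills (W : WeilTheory.{u, v, w} C) {X Y : 𝒱.Obj} (γ : C.CH (X.prod Y)) (j : ℕ) : Prop :=
  ZeroOn (W.gr X j) (W.act γ)

/-- A family of subspaces of the Chow groups: `F X i k` stands for `F^k CH^i(X)`. -/
abbrev Family (C : ChowTheory.{u, v} 𝒱) : Type (max (u + 1) v) :=
  ∀ X : 𝒱.Obj, ℕ → ℕ → Submodule ℚ (C.CH X)

/-- `x` lies in `F^k CH^i(X)`. -/
def InF (F : Family C) (X : 𝒱.Obj) (i k : ℕ) (x : C.CH X) : Prop := MemSub (F X i k) x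

/-- Properties 1 and 2 of a Bloch–Beilinson filtration: for all `X` and `i` the subspaces
`F^k CH^i(X)` form a descending filtration with `F^0 CH^i(X) = CH^i(X)`,
`F^1 CH^i(X) = ker(cl)` and `F^(i+1) CH^i(X) = 0`. -/
structure IsFil (W : WeilTheory.{u, v, w} C) (F : Family C) : Prop where
  anti : ∀ (X : 𝒱.Obj) (i k : ℕ) (x : C.CH X), InF F X i (k + 1) x → InF F X i k x
  zero : ∀ (X : 𝒱.Obj) (i : ℕ) (x : C.CH X), InF F X i 0 x ↔ InCH C X i x
  one : ∀ (X : 𝒱.Obj) (i : ℕ) (x : C.CH X), InF F X i 1 x ↔ HomTrivial W X i x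
  top : ∀ (X : 𝒱.Obj) (i : ℕ) (x : C.CH X), InF F X i (i + 1) x → x = 0

/-- Properties 3 and 4 of a Bloch–Beilinson filtration: products, pull-backs and push-forwards. -/
structure IsFunctorial (F : Family C) : Prop where
  mul : ∀ (X : 𝒱.Obj) (i j k l : ℕ) (x y : C.CH X), InF F X i k x → InF F X j l y →
    InF F X (i + j) (k + l) (x * y)
  pull : ∀ {X Y : 𝒱.Obj} (f : X ⟶ Y) (i k : ℕ) (y : C.CH Y), InF F Y i k y →
    InF F X i k (applyHom (C.pull f) y)
  push : ∀ {X Y : 𝒱.Obj} (f : X ⟶ Y) (i j k : ℕ) (x : C.CH X), i + Y.dim = j + X.dim →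
    InF F X i k x → InF F Y j k (applyLin (C.push f) x)

/-- Property 5 of a Bloch–Beilinson filtration: a correspondence in `CH^(dim X)(X × X)` which acts
as zero on `H^(2i-k)(X)` acts as zero on `Gr^k CH^i(X)`. -/
def IsMotivic (W : WeilTheory.{u, v, w} C) (F : Family C) : Prop :=
  ∀ (X : 𝒱.Obj) (i j k : ℕ), j + k = 2 * i → ∀ γ, IsSelfCorr C X γ → Kills W γ j →
    ∀ x, InF F X i k x → InF F X i (k + 1) (corrAct C γ x)

/-- `F` is a **Bloch–Beilinson filtration** (properties 1–5). -/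
structure IsBB (W : WeilTheory.{u, v, w} C) (F : Family C) : Prop where
  fil : IsFil W F
  functorial : IsFunctorial F
  motivic : IsMotivic W F

/-- Murre's conjecture (D) for `X`: for each Chow–Künneth decomposition of `X` and each `i` the
group `F^1 CH^i(X)` consists of the homologically trivial classes. -/
def MurreD (W : WeilTheory.{u, v, w} C) (X : 𝒱.Obj) : Prop :=
  ∀ π : ℕ → C.CH (X.prod X), W.IsCK X π → ∀ i x, MemSub (C.ckFil π i 1) x ↔ HomTrivial W X i x

/-- The second half of Murre's conjecture (B) for `X`: for each Chow–Künneth decomposition of `X`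
and each `i` one has `F^(i+1) CH^i(X) = 0`. -/
def MurreB1 (W : WeilTheory.{u, v, w} C) (X : 𝒱.Obj) : Prop :=
  ∀ π : ℕ → C.CH (X.prod X), W.IsCK X π → ∀ i x, MemSub (C.ckFil π i (i + 1)) x → x = 0

end Pool.Agent.T6.H15.BB
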