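import Pool.Agent.T6.H15.BB.Defs

/-!
# Generating families of pure Chow motives: definitions
-/

open CategoryTheory CategoryTheory.Limits AlgebraicGeometry
open Pool.Agent.H914 Pool.Agent.H914.VarClass Pool.Agent.H914.VarClass.Obj Pool.Agent.R903

universe u v w

namespace Pool.Agent.T6.H15.BB

/-- The product `p(x) q(y)`. -/
def mulPull {A B D : Type v} [CommRing A] [Algebra ℚ A] [CommRing B] [Algebra ℚ B] [CommRing D]
    [Algebra ℚ D] (p : A →ₐ[ℚ] D) (q : B →ₐ[ℚ] D) (x : A) (y : B) : D := p x * q y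

variable {k : Type u} [Field k] {𝒱 : VarClass k}

/-- The external product `x × y`. -/
noncomputable def extProd (C : ChowTheory.{u, v} 𝒱) {X Y : 𝒱.Obj} (x : C.CH X) (y : C.CH Y) :
    C.CH (X.prod Y) := mulPull (C.pull (fst X Y)) (C.pull (snd X Y)) x y

/-- The composition of correspondences, first `α`, then `β`. -/
noncomputable def compose (C : ChowTheory.{u, v} 𝒱) {X Y Z : 𝒱.Obj} (α : C.CH (X.prod Y))
    (β : C.CH (Y.prod Z)) : C.CH (X.prod Z) :=
  applyLin (C.push (p13 X Y Z)) (mulPull (C.pull (p12 X Y Z)) (C.pull (snd X (Y.prod Z))) α β)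

/-- The transpose of a correspondence. -/
noncomputable def dual (C : ChowTheory.{u, v} 𝒱) {X : 𝒱.Obj} (p : C.CH (X.prod X)) : C.CH (X.prod X) :=
  applyHom (C.pull (lift (snd X X) (fst X X))) p

/-- The projection `(X × Y) × (X × Y) → X × X`. -/
noncomputable def prFst (X Y : 𝒱.Obj) : (X.prod Y).prod (X.prod Y) ⟶ X.prod X :=
  lift (fst _ _ ≫ fst X Y) (snd _ _ ≫ fst X Y)

/-- The projection `(X × Y) × (X × Y) → Y × Y`. -/
noncomputable def prSnd (X Y : 𝒱.Obj) : (X.prod Y).prod (X.prod Y) ⟶ Y.prod Y :=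
  lift (fst _ _ ≫ snd X Y) (snd _ _ ≫ snd X Y)

/-- The tensor product `p ⊗ q` of correspondences from `X` to `X` and from `Y` to `Y`. -/
noncomputable def tens (C : ChowTheory.{u, v} 𝒱) {X Y : 𝒱.Obj} (p : C.CH (X.prod X)) (q : C.CH (Y.prod Y)) :
    C.CH ((X.prod Y).prod (X.prod Y)) :=
  mulPull (C.pull (prFst X Y)) (C.pull (prSnd X Y)) p q

/-- The sum `a + b`. -/
def plus {A : Type v} [CommRing A] (a b : A) : A := a + b

/-- The sums in `CH(X × X)` of correspondences of two types: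
* `u × v` with `u` in `CH^s(X)` and `v` in `CH^r(X)`, where `s + r = dim X`: the composites
  `h(X) → L^r → h(X)`, where `L^r` is the `r`-th power of the Lefschetz motive;
* `α ∘ p ∘ β` with `Q Z p`, `β` in `CH^s(X × Z)` and `α` in `CH^(dim Z + r)(Z × X)`, where
  `s + r = dim X`: the composites `h(X) → (Z, p)(-r) → h(X)`.

So the diagonal is such a sum if and only if `h(X)` is a direct summand of a finite direct sum of
motives `L^r` and `(Z, p)(-r)` with `Q Z p` and `r ≥ 0`. -/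
inductive SumThrough (C : ChowTheory.{u, v} 𝒱) (Q : ∀ Z : 𝒱.Obj, C.CH (Z.prod Z) → Prop)
    (X : 𝒱.Obj) : C.CH (X.prod X) → Prop
  | zero : SumThrough C Q X 0
  | lef {γ : C.CH (X.prod X)} (h : SumThrough C Q X γ) {r s : ℕ} {u v : C.CH X}
      (hu : InCH C X s u) (hv : InCH C X r v) (hs : s + r = X.dim) :
      SumThrough C Q X (plus γ (extProd C u v))
  | mot {γ : C.CH (X.prod X)} (h : SumThrough C Q X γ) {Z : 𝒱.Obj} {p : C.CH (Z.prod Z)}
      (hp : Q Z p) {r s : ℕ} {β : C.CH (X.prod Z)} {α : C.CH (Z.prod X)}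
      (hβ : InCH C (X.prod Z) s β) (hα : InCH C (Z.prod X) (Z.dim + r) α) (hs : s + r = X.dim) :
      SumThrough C Q X (plus γ (compose C (compose C β p) α))

variable {C : ChowTheory.{u, v} 𝒱}

/-- `P` is a family of pure Chow motives: `P Z w p` says that the motive `(Z, p)` belongs to the
family and has weight `w`, that is, `H^l(Z, p) = 0` for `l ≠ w`. The family is closed under duals
and tensor products. -/
structure PureFamily (W : WeilTheory.{u, v, w} C)
    (P : ∀ Z : 𝒱.Obj, ℕ → C.CH (Z.prod Z) → Prop) : Prop where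
  self : ∀ (Z : 𝒱.Obj) (w : ℕ) (p : C.CH (Z.prod Z)), P Z w p → IsSelfCorr C Z p
  idem : ∀ (Z : 𝒱.Obj) (w : ℕ) (p : C.CH (Z.prod Z)), P Z w p → compose C p p = p
  le : ∀ (Z : 𝒱.Obj) (w : ℕ) (p : C.CH (Z.prod Z)), P Z w p → w ≤ 2 * Z.dim
  pure : ∀ (Z : 𝒱.Obj) (w l : ℕ) (p : C.CH (Z.prod Z)), P Z w p → l ≠ w → Kills W p l
  dual : ∀ (Z : 𝒱.Obj) (w w' : ℕ) (p : C.CH (Z.prod Z)), P Z w p → w + w' = 2 * Z.dim →
    P Z w' (dual C p)
  tens : ∀ (Z Z' : 𝒱.Obj) (w w' : ℕ) (p : C.CH (Z.prod Z)) (p' : C.CH (Z'.prod Z')),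
    P Z w p → P Z' w' p' → P (Z.prod Z') (w + w') (tens C p p')

/-- For each motive `(Z, p)` of weight `w` in the family one has `CH^m(Z, p)_hom = 0` for `2m ≤ w`
and for `m > w`. -/
def PureVanishing (W : WeilTheory.{u, v, w} C)
    (P : ∀ Z : 𝒱.Obj, ℕ → C.CH (Z.prod Z) → Prop) : Prop :=
  ∀ (Z : 𝒱.Obj) (w : ℕ) (p : C.CH (Z.prod Z)), P Z w p → ∀ m : ℕ, (2 * m ≤ w ∨ w < m) →
    ∀ x, HomTrivial W Z m x → corrAct C p x = x → x = 0

/-- `X` is a product of curves. -/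
inductive IsCurveProd : 𝒱.Obj → Prop
  | curve {E : 𝒱.Obj} (hE : E.dim = 1) : IsCurveProd E
  | prod {X Y : 𝒱.Obj} (hX : IsCurveProd X) (hY : IsCurveProd Y) : IsCurveProd (X.prod Y)

/-- The projector `Δ - e × [E] - [E] × e` of a curve `E`, for `e` in `CH^1(E)`. -/
noncomputable def midProj (C : ChowTheory.{u, v} 𝒱) {E : 𝒱.Obj} (e : C.CH E) : C.CH (E.prod E) :=
  C.diagC E - extProd C e 1 - extProd C 1 e

/-- `(Z, p)` is `h^1(E_1) ⊗ ⋯ ⊗ h^1(E_w)` for some curves `E_1, …, E_w`: here `Z` is the product of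
the curves, and `p` is the tensor product of the projectors `Δ - e_i × [E_i] - [E_i] × e_i` with
`e_i` in `CH^1(E_i)` of degree one. -/
inductive CurveMotive (C : ChowTheory.{u, v} 𝒱) : ∀ Z : 𝒱.Obj, ℕ → C.CH (Z.prod Z) → Prop
  | curve {E : 𝒱.Obj} {e : C.CH E} (hE : E.dim = 1) (he : InCH C E 1 e) (hd : C.deg E e = 1) :
      CurveMotive C E 1 (midProj C e)
  | prod {X Y : 𝒱.Obj} {w w' : ℕ} {p : C.CH (X.prod X)} {q : C.CH (Y.prod Y)}
      (hp : CurveMotive C X w p) (hq : CurveMotive C Y w' q) :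
      CurveMotive C (X.prod Y) (w + w') (tens C p q)

/-- Primitive cycle classes on products of curves: a homologically trivial class `x` in
`CH^m(E_1 × ⋯ × E_n)` with `n ≥ 2m` and `p_* x = x`, where `p` is the projector onto
`h^1(E_1) ⊗ ⋯ ⊗ h^1(E_n)`, is zero. -/
def PrimitiveVanishing (W : WeilTheory.{u, v, w} C) : Prop :=
  ∀ (Z : 𝒱.Obj) (n : ℕ) (p : C.CH (Z.prod Z)), CurveMotive C Z n p → ∀ m : ℕ, 2 * m ≤ n →
    ∀ x, HomTrivial W Z m x → corrAct C p x = x → x = 0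

end Pool.Agent.T6.H15.BB
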