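import Pool.Agent.T6.H15.BB.Lef
import Pool.Agent.T6.H15.BB.GenDefs

/-!
# Generating families of pure Chow motives: the general theorem
-/

open CategoryTheory CategoryTheory.Limits AlgebraicGeometry Polynomial
open Pool.Agent.H914 Pool.Agent.H914.VarClass Pool.Agent.H914.VarClass.Obj Pool.Agent.R903
open Pool.Agent.R903.WeilTheory

universe u v w

namespace Pool.Agent.T6.H15.BB

variable {k : Type u} [Field k] {𝒱 : VarClass k} {C : ChowTheory.{u, v} 𝒱}
  {W : WeilTheory.{u, v, w} C} {X Y Z T E : 𝒱.Obj}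

lemma extProd_eq (x : C.CH X) (y : C.CH Y) : extProd C x y = C.ext x y := rfl

lemma compose_eq (α : C.CH (X.prod Y)) (β : C.CH (Y.prod Z)) : compose C α β = C.comp α β := rfl

lemma dual_eq (p : C.CH (X.prod X)) : dual C p = C.transp p := rfl

lemma tens_eq (p : C.CH (X.prod X)) (q : C.CH (Y.prod Y)) : tens C p q = C.tensor p q := rfl

lemma plus_eq {A : Type v} [CommRing A] (a b : A) : plus a b = a + b := rfl

lemma comp_eq_zero {α : C.CH (X.prod Y)} {β : C.CH (Y.prod Z)} {p q : ℕ}
    (hα : α ∈ C.gr (X.prod Y) p) (hβ : β ∈ C.gr (Y.prod Z) q) (h : p + q < Y.dim) :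
    C.comp α β = 0 :=
  C.push_eq_zero _ (C.mul_mem (C.pull_mem _ hα) (C.pull_mem _ hβ))
    (by simp only [dim_prod]; omega)

section Pure

variable {P : ∀ Z : 𝒱.Obj, ℕ → C.CH (Z.prod Z) → Prop}

/-- Morphisms between pure motives which lower the weight, or are homologically trivial and
preserve the weight, vanish. -/
lemma PureFamily.block (hP : PureFamily W P) (hV : PureVanishing W P) {Z Z' : 𝒱.Obj} {a b : ℕ}
    {p : C.CH (Z.prod Z)} {p' : C.CH (Z'.prod Z')} (h : P Z a p) (h' : P Z' b p') {m : ℕ}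
    {η : C.CH (Z.prod Z')} (hη : η ∈ C.gr (Z.prod Z') m)
    (hm : 2 * m + a < 2 * Z.dim + b ∨ (2 * m + a = 2 * Z.dim + b ∧ Kills W η a)) :
    C.comp (C.comp p η) p' = 0 := by
  have ha := hP.le Z a p h
  have hpm : p ∈ C.gr (Z.prod Z) Z.dim := hP.self Z a p h
  have hpm' : p' ∈ C.gr (Z'.prod Z') Z'.dim := hP.self Z' b p' h'
  have hpi : C.comp p p = p := hP.idem Z a p h
  have hpi' : C.comp p' p' = p' := hP.idem Z' b p' h'
  have hq := hP.tens Z Z' _ _ _ _ (hP.dual Z a (2 * Z.dim - a) p h (by omega)) h'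
  rw [tens_eq, dual_eq] at hq
  have hmem : C.comp (C.comp p η) p' ∈ C.gr (Z.prod Z') m :=
    C.comp_mem (C.comp_mem hpm hη (add_comm _ _)) hpm' rfl
  have hcl : W.cl _ (C.comp (C.comp p η) p') = 0 := by
    refine cl_eq_zero W fun l v hv => ?_
    rw [W.act_comp _ hpm', W.act_comp _ hη]
    by_cases hl : l = a
    · subst hl
      rcases hm with hm | ⟨hm, h0⟩
      · have hv2 : W.act p v ∈ W.gr Z l := act_mem_H hpm hv rfl
        rcases Nat.lt_or_ge (l + 2 * m) (2 * Z.dim) with h3 | h3
        · rw [act_eq_zero_H hη hv2 h3, map_zero]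
        · exact hP.pure Z' b (l + 2 * m - 2 * Z.dim) p' h' (by omega) _
            (act_mem_H hη hv2 (by omega))
      · have hv2 : W.act p v ∈ W.gr Z l := act_mem_H hpm hv rfl
        rw [h0 _ hv2, map_zero]
    · rw [hP.pure Z a l p h hl v hv, map_zero, map_zero]
  refine hV (Z.prod Z') _ _ hq m (Or.inl ?_) _ (homTrivial_mk hmem hcl) ?_
  · rcases hm with hm | ⟨hm, _⟩ <;> omega
  · change C.act (C.tensor (C.transp p) p') (C.comp (C.comp p η) p') = _
    have e1 : C.comp p (C.comp (C.comp p η) p') = C.comp (C.comp p η) p' := by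
      rw [← C.comp_assoc p (C.comp p η) p', ← C.comp_assoc p p η, hpi]
    rw [C.act_tensor, e1, C.comp_assoc (C.comp p η) p' p', hpi']

/-- The weight filtration defined by the family: `x` is killed by all morphisms to motives
`(Z, p)(-r)` of weight at least `w`. -/
def KilledFrom (P : ∀ Z : 𝒱.Obj, ℕ → C.CH (Z.prod Z) → Prop) {X : 𝒱.Obj} (w : ℕ)
    (x : C.CH X) : Prop :=
  ∀ (Z : 𝒱.Obj) (a : ℕ) (p : C.CH (Z.prod Z)), P Z a p → ∀ (r s : ℕ) (β : C.CH (X.prod Z)),
    β ∈ C.gr (X.prod Z) s → s + r = X.dim → w ≤ a + 2 * r → C.act p (C.act β x) = 0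

lemma HomTrivial.deg (W : WeilTheory.{u, v, w} C) {i : ℕ} {x : C.CH X}
    (hx : HomTrivial W X i x) (u : C.CH X) : C.deg X (x * u) = 0 := by
  have h1 : (C.deg X (x * u) : W.K) = 0 := by
    rw [← W.tr_cl, W.cl_mul, hx.cl, zero_mul, map_zero]
  exact_mod_cast h1

lemma HomTrivial.act_act {i : ℕ} {x : C.CH X} (hx : HomTrivial W X i x) {s r : ℕ}
    {β : C.CH (X.prod Z)} (hβ : β ∈ C.gr (X.prod Z) s) (hs : s + r = X.dim) (hr : r ≤ i)
    {p : C.CH (Z.prod Z)} (hp : p ∈ C.gr (Z.prod Z) Z.dim) :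
    HomTrivial W Z (i - r) (C.act p (C.act β x)) :=
  (hx.act hβ (by omega)).act hp rfl

theorem PureFamily.eigOn (hP : PureFamily W P) (hV : PureVanishing W P)
    (hX : ∀ X : 𝒱.Obj, SumThrough C (fun Z p => ∃ w, P Z w p) X (C.diagC X)) :
    EigOn W (fun _ => True) := by
  intro X _ δ hδ i c hc x hx hcx
  -- step 1
  have h1 : KilledFrom P (2 * i) x := by
    intro Z a p hp r s β hβ hs hw
    by_cases hr : r ≤ i
    · have h2 := hx.act_act hβ hs hr (hP.self Z a p hp)
      refine hV Z a p hp (i - r) (Or.inl (by omega)) _ h2 ?_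
      change C.act p _ = _
      rw [← C.act_comp p p, ← compose_eq, hP.idem Z a p hp]
    · rw [C.act_eq_zero hβ hx.1 (by omega), map_zero]
  -- step 2
  have h2 : ∀ w, i ≤ w → w < 2 * i → KilledFrom P (w + 1) x → KilledFrom P w x := by
    intro w hw1 hw2 hk Z b p hp r s β hβ hs hw
    by_cases hw3 : w + 1 ≤ b + 2 * r
    · exact hk Z b p hp r s β hβ hs hw3
    have hpm : p ∈ C.gr (Z.prod Z) Z.dim := hP.self Z b p hp
    have hεm : δ - (w : ℚ) • C.diagC X ∈ C.gr (X.prod X) X.dim :=
      Submodule.sub_mem _ hδ.1 (Submodule.smul_mem _ _ (C.diagC_mem X))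
    have key : ∀ γ, SumThrough C (fun Z p => ∃ w, P Z w p) X γ →
        C.act p (C.act β (C.act (δ - (w : ℚ) • C.diagC X) (C.act γ x))) = 0 := by
      intro γ hγ
      induction hγ with
      | zero => rw [C.act_zero, LinearMap.zero_apply, map_zero, map_zero, map_zero]
      | @lef γ _ r' s' u v hu hv hs' ih =>
        rw [plus_eq, C.act_add, LinearMap.add_apply, map_add, map_add, map_add, ih, zero_add,
          extProd_eq, C.act_ext, hx.deg W, zero_smul, map_zero, map_zero, map_zero]
      | @mot γ _ Z' p' hp' r' s' β' α' hβ' hα' hs' ih =>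
        rw [plus_eq, C.act_add, LinearMap.add_apply, map_add, map_add, map_add, ih, zero_add,
          compose_eq, compose_eq, C.act_comp, C.act_comp]
        obtain ⟨a, hp'⟩ := hp'
        by_cases hw4 : w + 1 ≤ a + 2 * r'
        · rw [hk Z' a p' hp' r' s' β' hβ' hs' hw4, map_zero, map_zero, map_zero, map_zero]
        · have hη : C.comp (C.comp p' (C.comp (C.comp α' (δ - (w : ℚ) • C.diagC X)) β)) p = 0 := by
            rcases Nat.lt_or_ge (Z'.dim + r') r with h5 | h5
            · rw [comp_eq_zero (C.comp_mem hα' hεm rfl) hβ (by omega), C.comp_zero, C.zero_comp]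
            · have hηm : C.comp (C.comp α' (δ - (w : ℚ) • C.diagC X)) β ∈
                C.gr (Z'.prod Z) (Z'.dim + r' - r) :=
                C.comp_mem (C.comp_mem hα' hεm rfl) hβ (by omega)
              refine hP.block hV hp' hp hηm ?_
              by_cases hw5 : a + 2 * r' = w
              · right
                refine ⟨by omega, ?_⟩
                intro v hv
                rw [W.act_comp _ hβ, W.act_comp _ hεm]
                have h6 : W.act α' v ∈ W.gr X w := act_mem_H hα' hv (by omega)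
                rw [kills_sub_smul hδ w _ h6, map_zero]
              · left; omega
          have h7 := congrArg (fun ξ => C.act ξ (C.act β' x)) hη
          simp only [C.act_comp, C.act_zero, LinearMap.zero_apply] at h7
          exact h7
    have h8 := key _ (hX X)
    rw [C.act_diagC, C.act_sub, C.act_smul, LinearMap.sub_apply, LinearMap.smul_apply,
      C.act_diagC, hcx, ← sub_smul, map_smul, map_smul] at h8
    refine (smul_eq_zero.1 h8).resolve_left ?_
    rw [← ne_eq, sub_ne_zero]
    intro h9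
    rw [Nat.cast_inj] at h9
    omega
  have h3 : ∀ n, n ≤ i → KilledFrom P (2 * i - n) x := by
    intro n
    induction n with
    | zero => intro _; exact h1
    | succ n ih =>
      intro hn
      refine h2 (2 * i - (n + 1)) (by omega) (by omega) ?_
      have : 2 * i - (n + 1) + 1 = 2 * i - n := by omega
      rw [this]
      exact ih (by omega)
  have h4 : KilledFrom P i x := by
    have := h3 i le_rfl
    have h5 : 2 * i - i = i := by omega
    rwa [h5] at this
  -- step 3
  have key : ∀ γ, SumThrough C (fun Z p => ∃ w, P Z w p) X γ → C.act γ x = 0 := by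
    intro γ hγ
    induction hγ with
    | zero => rw [C.act_zero, LinearMap.zero_apply]
    | @lef γ _ r' s' u v hu hv hs' ih =>
      rw [plus_eq, C.act_add, LinearMap.add_apply, ih, zero_add, extProd_eq, C.act_ext,
        hx.deg W, zero_smul]
    | @mot γ _ Z p hp r s β α hβ hα hs ih =>
      rw [plus_eq, C.act_add, LinearMap.add_apply, ih, zero_add, compose_eq, compose_eq,
        C.act_comp, C.act_comp]
      obtain ⟨a, hp⟩ := hp
      by_cases hw : i ≤ a + 2 * r
      · rw [h4 Z a p hp r s β hβ hs hw, map_zero]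
      · by_cases hr : r ≤ i
        · have h2 := hx.act_act hβ hs hr (hP.self Z a p hp)
          rw [hV Z a p hp (i - r) (Or.inr (by omega)) _ h2 ?_, map_zero]
          change C.act p _ = _
          rw [← C.act_comp p p, ← compose_eq, hP.idem Z a p hp]
        · rw [C.act_eq_zero hβ hx.1 (by omega), map_zero, map_zero]
  have := key _ (hX X)
  rwa [C.act_diagC] at this

/-- The Künneth conjecture. -/
theorem PureFamily.kunneth (hP : PureFamily W P)
    (hX : ∀ X : 𝒱.Obj, SumThrough C (fun Z p => ∃ w, P Z w p) X (C.diagC X)) : W.Kunneth := by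
  intro X
  have key : ∀ γ, SumThrough C (fun Z p => ∃ w, P Z w p) X γ →
      ∃ π : ℕ → C.CH (X.prod X), (∀ j, π j ∈ C.gr (X.prod X) X.dim) ∧
        (∀ j l, l ≠ j → Kills W (π j) l) ∧ ∀ l, ∀ a ∈ W.gr X l, W.act γ a = W.act (π l) a := by
    have step : ∀ (γ η : C.CH (X.prod X)) (n : ℕ), η ∈ C.gr (X.prod X) X.dim →
        (∀ l, l ≠ n → Kills W η l) →
        (∃ π : ℕ → C.CH (X.prod X), (∀ j, π j ∈ C.gr (X.prod X) X.dim) ∧
          (∀ j l, l ≠ j → Kills W (π j) l) ∧ ∀ l, ∀ a ∈ W.gr X l, W.act γ a = W.act (π l) a) →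
        ∃ π : ℕ → C.CH (X.prod X), (∀ j, π j ∈ C.gr (X.prod X) X.dim) ∧
          (∀ j l, l ≠ j → Kills W (π j) l) ∧
          ∀ l, ∀ a ∈ W.gr X l, W.act (γ + η) a = W.act (π l) a := by
      rintro γ η n hη hk ⟨π, h1, h2, h3⟩
      refine ⟨fun j => if j = n then π j + η else π j, fun j => ?_, fun j l hl a ha => ?_,
        fun l a ha => ?_⟩ <;> beta_reduce
      · split_ifs
        · exact Submodule.add_mem _ (h1 j) hη
        · exact h1 j
      · split_ifs with hj
        · rw [W.act_add, LinearMap.add_apply, h2 j l hl a ha, hk l (by omega) a ha, add_zero]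
        · exact h2 j l hl a ha
      · split_ifs with hj
        · rw [W.act_add, W.act_add, LinearMap.add_apply, LinearMap.add_apply, h3 l a ha]
        · rw [W.act_add, LinearMap.add_apply, h3 l a ha, hk l hj a ha, add_zero]
    intro γ hγ
    induction hγ with
    | zero =>
      refine ⟨fun _ => 0, fun _ => Submodule.zero_mem _, fun j l _ a _ => ?_, fun l a _ => rfl⟩
      rw [W.act_zero, LinearMap.zero_apply]
    | @lef γ _ r s u v hu hv hs ih =>
      refine step γ _ (2 * r) ?_ ?_ ih
      · have := C.ext_mem (X := X) (Y := X) hu hv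
        rw [hs] at this
        exact this
      · intro l hl a ha
        rw [extProd_eq, act_ext_H u (Y := X) (v := v) hv,
          W.tr_eq_zero (W.mul_mem (W.cl_mem hu) ha) (by omega), zero_smul]
    | @mot γ _ Z p hp r s β α hβ hα hs ih =>
      obtain ⟨w, hp⟩ := hp
      have hpm : p ∈ C.gr (Z.prod Z) Z.dim := hP.self Z w p hp
      have hβ' : β ∈ C.gr (X.prod Z) s := hβ
      have hα' : α ∈ C.gr (Z.prod X) (Z.dim + r) := hα
      refine step γ _ (w + 2 * r) ?_ ?_ ih
      · exact C.comp_mem (C.comp_mem hβ' hpm rfl) hα' (by omega)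
      · intro l hl a ha
        rw [compose_eq, compose_eq, W.act_comp _ hα', W.act_comp _ hpm]
        rcases Nat.lt_or_ge (l + 2 * s) (2 * X.dim) with h3 | h3
        · rw [act_eq_zero_H hβ' ha h3, map_zero, map_zero]
        · rw [hP.pure Z w (l + 2 * s - 2 * X.dim) p hp (by omega) _
            (act_mem_H hβ' ha (by omega)), map_zero]
  obtain ⟨π, h1, h2, h3⟩ := key _ (hX X)
  intro j
  refine ⟨π j, h1 j, fun l a ha => ?_⟩
  split_ifs with hl
  · subst hl
    rw [← h3 l a ha, W.act_diagC]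
  · exact h2 j l hl a ha

theorem PureFamily.main (hP : PureFamily W P)
    (hX : ∀ X : 𝒱.Obj, SumThrough C (fun Z p => ∃ w, P Z w p) X (C.diagC X)) :
    W.Kunneth ∧ ((∃ F : Family C, IsBB W F) ↔ PureVanishing W P) := by
  have hS : ∀ X Y : 𝒱.Obj, (fun _ : 𝒱.Obj => True) X → (fun _ : 𝒱.Obj => True) Y →
    (fun _ : 𝒱.Obj => True) (X.prod Y) := fun _ _ _ _ => trivial
  have hK := hP.kunneth hX
  have hKon : KunnethOn W (fun _ => True) := fun X _ j => hK X j
  refine ⟨hK, ?_, ?_⟩
  · rintro ⟨F, hF⟩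
    have hF := isBB_iff.1 hF
    have hG := (DegOn.eig hF.toFilCore hF.deg).good hS hKon
    intro Z w p hp m hm x hx hpx
    refine hG.fix hS Z trivial m p (hP.self Z w p hp) (fun j h1 h2 => ?_) x hx hpx
    exact hP.pure Z w j p hp (by omega)
  · intro hV
    obtain ⟨F, hF, _⟩ := ((hP.eigOn hV hX).good hS hKon).exists_bbCore hS
    exact ⟨F, isBB_iff.2 hF⟩

end Pure

end Pool.Agent.T6.H15.BB
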