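import Pool.Agent.T6.H15.BB.Gen

/-!
# Products of curves
-/

open CategoryTheory CategoryTheory.Limits AlgebraicGeometry Polynomial
open Pool.Agent.H914 Pool.Agent.H914.VarClass Pool.Agent.H914.VarClass.Obj Pool.Agent.R903
open Pool.Agent.R903.WeilTheory

universe u v w

namespace Pool.Agent.T6.H15.BB

variable {k : Type u} [Field k] {𝒱 : VarClass k} {C : ChowTheory.{u, v} 𝒱}
  {W : WeilTheory.{u, v, w} C} {X Y Z T E A B D P : 𝒱.Obj}

/-! ### composition with spans -/

lemma prodMap_id_id : prodMap (𝟙 X) (𝟙 Y) = 𝟙 (X.prod Y) := by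
  apply hom_ext_prod <;> simp

lemma span_comp (a : P ⟶ A) (b : P ⟶ B) (ω : C.CH P) (γ : C.CH (B.prod Z)) :
    C.comp (C.span a b ω) γ =
      C.push (prodMap a (𝟙 Z)) (C.pull (fst P Z) ω * C.pull (prodMap b (𝟙 Z)) γ) := by
  have h1 : C.pull (p12 A B Z) (C.push (lift a b) ω) =
      C.push (lift (fst P Z ≫ a) (lift (fst P Z ≫ b) (snd P Z))) (C.pull (fst P Z) ω) := by
    refine C.base_change (T := Z) (lift a b) _ (fst P Z) (p12 A B Z) (snd A _ ≫ snd B Z) ?_
      isIso_assoc ?_ ω
    · apply hom_ext_prod <;> simp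
    · have : lift (fst P Z ≫ a) (lift (fst P Z ≫ b) (snd P Z)) ≫ snd A _ ≫ snd B Z = snd P Z := by
        simp
      rw [this]; exact isIso_lift_fst_snd
  have e1 : lift (fst P Z ≫ a) (lift (fst P Z ≫ b) (snd P Z)) ≫ p13 A B Z =
      prodMap a (𝟙 Z) := by
    apply hom_ext_prod <;> simp
  have e2 : lift (fst P Z ≫ a) (lift (fst P Z ≫ b) (snd P Z)) ≫ snd A (B.prod Z) =
      prodMap b (𝟙 Z) := by
    apply hom_ext_prod <;> simp
  rw [ChowTheory.comp, ChowTheory.span, h1, ← C.push_mul, ← C.push_comp, ← C.pull_comp, e1, e2]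

lemma comp_span (α : C.CH (A.prod B)) (b : P ⟶ B) (c : P ⟶ D) (ω : C.CH P) :
    C.comp α (C.span b c ω) =
      C.push (prodMap (𝟙 A) c) (C.pull (prodMap (𝟙 A) b) α * C.pull (snd A P) ω) := by
  have e1 : prodMap (𝟙 A) (lift b c) ≫ p13 A B D = prodMap (𝟙 A) c := by
    apply hom_ext_prod <;> simp
  have e2 : prodMap (𝟙 A) (lift b c) ≫ p12 A B D = prodMap (𝟙 A) b := by
    apply hom_ext_prod <;> simp
  rw [ChowTheory.comp, ChowTheory.span, C.pull_snd_push, ← C.mul_push, ← C.push_comp,
    ← C.pull_comp, e1, e2]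

lemma ext_comp_gen (x : C.CH X) (y : C.CH Y) (w : C.CH (Y.prod Z)) :
    C.comp (C.ext x y) w = C.ext x (C.act w y) := by
  have e1 : p12 X Y Z ≫ fst X Y = p13 X Y Z ≫ fst X Z := by simp
  rw [ChowTheory.comp, ChowTheory.ext, ChowTheory.ext, C.pull_mul, ← C.pull_comp, ← C.pull_comp,
    e1, C.pull_comp (p13 X Y Z), mul_assoc, C.mul_push, C.act_apply, C.bc2, C.pull_mul,
    ← C.pull_comp, p12_snd]
  congr 2
  ring

lemma comp_ext_gen (w : C.CH (X.prod Y)) (y : C.CH Y) (z : C.CH Z) :
    C.comp w (C.ext y z) = C.ext (C.act (C.transp w) y) z := by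
  have h1 := C.comp_transp (C.transp (C.ext y z)) (C.transp w)
  have h2 : ∀ {A B : 𝒱.Obj} (γ : C.CH (A.prod B)), C.transp (C.transp γ) = γ := by
    intro A B γ
    have e : swap A B ≫ swap B A = 𝟙 _ := by apply hom_ext_prod <;> simp
    rw [ChowTheory.transp, ChowTheory.transp, ← C.pull_comp, e, C.pull_id]
  rw [h2, h2, transp_ext, ext_comp_gen, transp_ext] at h1
  exact h1

/-! ### tensor products with external products -/

lemma tensor_ext_ext (u v : C.CH X) (u' v' : C.CH Y) :
    C.tensor (C.ext u v) (C.ext u' v') = C.ext (C.ext u u') (C.ext v v') := by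
  rw [ChowTheory.tensor]
  simp only [ChowTheory.ext, C.pull_mul, ← C.pull_comp, prodMap_fst, prodMap_snd]
  ring

lemma tensor_ext_right (T : C.CH (X.prod X)) (u v : C.CH Y) :
    C.tensor T (C.ext u v) =
      C.comp (C.comp (C.span (𝟙 (X.prod Y)) (fst X Y) (C.pull (snd X Y) u)) T)
        (C.span (fst X Y) (𝟙 (X.prod Y)) (C.pull (snd X Y) v)) := by
  rw [span_comp, comp_span, prodMap_id_id, prodMap_id_id, C.push_id, C.push_id]
  rw [ChowTheory.tensor]
  simp only [ChowTheory.ext, C.pull_mul, ← C.pull_comp, prodMap_fst, prodMap_snd]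
  have e1 : prodMap (𝟙 (X.prod Y)) (fst X Y) ≫ fst (X.prod Y) X ≫ snd X Y =
      fst (X.prod Y) (X.prod Y) ≫ snd X Y := by simp
  have e2 : prodMap (𝟙 (X.prod Y)) (fst X Y) ≫ prodMap (fst X Y) (𝟙 X) =
      prodMap (fst X Y) (fst X Y) := by
    apply hom_ext_prod <;> simp
  rw [e1, e2]
  ring

lemma tensor_ext_left (T : C.CH (Y.prod Y)) (u v : C.CH X) :
    C.tensor (C.ext u v) T =
      C.comp (C.comp (C.span (𝟙 (X.prod Y)) (snd X Y) (C.pull (fst X Y) u)) T)
        (C.span (snd X Y) (𝟙 (X.prod Y)) (C.pull (fst X Y) v)) := by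
  rw [span_comp, comp_span, prodMap_id_id, prodMap_id_id, C.push_id, C.push_id]
  rw [ChowTheory.tensor]
  simp only [ChowTheory.ext, C.pull_mul, ← C.pull_comp, prodMap_fst, prodMap_snd]
  have e1 : prodMap (𝟙 (X.prod Y)) (snd X Y) ≫ fst (X.prod Y) Y ≫ fst X Y =
      fst (X.prod Y) (X.prod Y) ≫ fst X Y := by simp
  have e2 : prodMap (𝟙 (X.prod Y)) (snd X Y) ≫ prodMap (snd X Y) (𝟙 Y) =
      prodMap (snd X Y) (snd X Y) := by
    apply hom_ext_prod <;> simp
  rw [e1, e2]
  ring

/-! ### operations on sums -/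

section SumThrough

variable {Q Q' : ∀ Z : 𝒱.Obj, C.CH (Z.prod Z) → Prop}

lemma SumThrough.add {γ γ' : C.CH (X.prod X)} (h : SumThrough C Q X γ)
    (h' : SumThrough C Q X γ') : SumThrough C Q X (γ + γ') := by
  induction h' with
  | zero => rwa [add_zero]
  | lef _ hu hv hs ih =>
    rw [plus_eq, ← add_assoc]
    exact SumThrough.lef ih hu hv hs
  | mot _ hp hβ hα hs ih =>
    rw [plus_eq, ← add_assoc]
    exact SumThrough.mot ih hp hβ hα hs

lemma SumThrough.of_ext {r s : ℕ} {u v : C.CH X} (hu : u ∈ C.gr X s) (hv : v ∈ C.gr X r)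
    (hs : s + r = X.dim) : SumThrough C Q X (C.ext u v) := by
  have := SumThrough.lef (SumThrough.zero (C := C) (Q := Q) (X := X)) hu hv hs
  rwa [plus_eq, zero_add] at this

lemma SumThrough.of_mot {p : C.CH (Z.prod Z)} (hp : Q Z p) {r s : ℕ} {β : C.CH (X.prod Z)}
    {α : C.CH (Z.prod X)} (hβ : β ∈ C.gr (X.prod Z) s) (hα : α ∈ C.gr (Z.prod X) (Z.dim + r))
    (hs : s + r = X.dim) : SumThrough C Q X (C.comp (C.comp β p) α) := by
  have := SumThrough.mot (SumThrough.zero (C := C) (Q := Q) (X := X)) hp hβ hα hs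
  rwa [plus_eq, zero_add] at this

/-- composition with a morphism `h(X) → h(Z)(-r)` and a morphism `h(Z)(-r) → h(X)` -/
lemma SumThrough.conj {γ : C.CH (Z.prod Z)} (h : SumThrough C Q Z γ) {r s : ℕ}
    {β : C.CH (X.prod Z)} {α : C.CH (Z.prod X)} (hβ : β ∈ C.gr (X.prod Z) s)
    (hα : α ∈ C.gr (Z.prod X) (Z.dim + r)) (hs : s + r = X.dim) :
    SumThrough C Q X (C.comp (C.comp β γ) α) := by
  induction h with
  | zero => rw [C.comp_zero, C.zero_comp]; exact SumThrough.zero
  | @lef γ _ r' s' u v hu hv hs' ih =>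
    rw [plus_eq, C.comp_add, C.add_comp]
    refine ih.add ?_
    rw [extProd_eq, comp_ext_gen, ext_comp_gen]
    rcases Nat.lt_or_ge X.dim (r + r') with h1 | h1
    · rw [C.act_eq_zero (C.transp_mem hβ) hu (by omega), ext_zero_left]
      exact SumThrough.zero
    · exact SumThrough.of_ext (s := X.dim - (r + r')) (r := r + r')
        (C.act_mem (C.transp_mem hβ) hu (by omega)) (C.act_mem hα hv (by omega)) (by omega)
  | @mot γ _ Z' p hp r' s' β' α' hβ' hα' hs' ih =>
    rw [plus_eq, C.comp_add, C.add_comp]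
    refine ih.add ?_
    have e : C.comp (C.comp β (C.comp (C.comp β' p) α')) α =
        C.comp (C.comp (C.comp β β') p) (C.comp α' α) := by
      simp only [C.comp_assoc]
    rw [compose_eq, compose_eq, e]
    rcases Nat.lt_or_ge X.dim (r + r') with h1 | h1
    · rw [comp_eq_zero hβ hβ' (by omega), C.zero_comp, C.zero_comp]
      exact SumThrough.zero
    · exact SumThrough.of_mot (s := X.dim - (r + r')) (r := r + r') hp
        (C.comp_mem hβ hβ' (by omega)) (C.comp_mem hα' hα (by omega)) (by omega)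

lemma SumThrough.bind (hQ : ∀ Z p, Q Z p → SumThrough C Q' Z p) {γ : C.CH (X.prod X)}
    (h : SumThrough C Q X γ) : SumThrough C Q' X γ := by
  induction h with
  | zero => exact SumThrough.zero
  | lef _ hu hv hs ih => exact SumThrough.lef ih hu hv hs
  | mot _ hp hβ hα hs ih =>
    rw [plus_eq]
    exact ih.add ((hQ _ _ hp).conj hβ hα hs)

/-- tensor products -/
lemma SumThrough.tensor (hQ : ∀ Z Z' p p', Q Z p → Q Z' p' → Q (Z.prod Z') (C.tensor p p'))
    {γ : C.CH (X.prod X)} (h : SumThrough C Q X γ) {γ' : C.CH (Y.prod Y)}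
    (h' : SumThrough C Q Y γ') : SumThrough C Q (X.prod Y) (C.tensor γ γ') := by
  have add_tensor : ∀ (α α' : C.CH (X.prod X)) (β : C.CH (Y.prod Y)),
      C.tensor (α + α') β = C.tensor α β + C.tensor α' β := by
    intro α α' β
    simp [ChowTheory.tensor, add_mul]
  induction h with
  | zero => rw [C.zero_tensor]; exact SumThrough.zero
  | @lef γ _ r s u v hu hv hs ih =>
    rw [plus_eq, add_tensor]
    refine ih.add ?_
    rw [extProd_eq]
    clear ih
    induction h' with
    | zero => rw [C.tensor_zero]; exact SumThrough.zero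
    | @lef γ' _ r' s' u' v' hu' hv' hs' ih' =>
      rw [plus_eq, C.tensor_add, extProd_eq, tensor_ext_ext]
      exact ih'.add (SumThrough.of_ext (C.ext_mem hu hu') (C.ext_mem hv hv')
        (by rw [dim_prod]; omega))
    | @mot γ' _ Z p hp r' s' β α hβ hα hs' ih' =>
      rw [plus_eq, C.tensor_add, compose_eq, compose_eq]
      refine ih'.add ?_
      rw [tensor_ext_left]
      have e : ∀ (A : C.CH ((X.prod Y).prod Y)) (B : C.CH (Y.prod (X.prod Y))),
          C.comp (C.comp A (C.comp (C.comp β p) α)) B =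
          C.comp (C.comp (C.comp A β) p) (C.comp α B) := by
        intro A B
        simp only [C.comp_assoc]
      rw [e]
      have hA : C.span (𝟙 (X.prod Y)) (snd X Y) (C.pull (fst X Y) u) ∈
          C.gr ((X.prod Y).prod Y) (s + Y.dim) :=
        C.span_mem _ _ (C.pull_mem _ hu) (by omega)
      have hB : C.span (snd X Y) (𝟙 (X.prod Y)) (C.pull (fst X Y) v) ∈
          C.gr (Y.prod (X.prod Y)) (r + Y.dim) :=
        C.span_mem _ _ (C.pull_mem _ hv) (by omega)
      exact SumThrough.of_mot (s := s + s') (r := r + r') hp (C.comp_mem hA hβ (by omega))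
        (C.comp_mem hα hB (by omega)) (by rw [dim_prod]; omega)
  | @mot γ _ Z p hp r s β α hβ hα hs ih =>
    rw [plus_eq, add_tensor]
    refine ih.add ?_
    rw [compose_eq, compose_eq]
    clear ih
    induction h' with
    | zero => rw [C.tensor_zero]; exact SumThrough.zero
    | @lef γ' _ r' s' u v hu hv hs' ih' =>
      rw [plus_eq, C.tensor_add, extProd_eq]
      refine ih'.add ?_
      rw [tensor_ext_right]
      have e : ∀ (A : C.CH ((X.prod Y).prod X)) (B : C.CH (X.prod (X.prod Y))),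
          C.comp (C.comp A (C.comp (C.comp β p) α)) B =
          C.comp (C.comp (C.comp A β) p) (C.comp α B) := by
        intro A B
        simp only [C.comp_assoc]
      rw [e]
      have hA : C.span (𝟙 (X.prod Y)) (fst X Y) (C.pull (snd X Y) u) ∈
          C.gr ((X.prod Y).prod X) (s' + X.dim) :=
        C.span_mem _ _ (C.pull_mem _ hu) (by omega)
      have hB : C.span (fst X Y) (𝟙 (X.prod Y)) (C.pull (snd X Y) v) ∈
          C.gr (X.prod (X.prod Y)) (r' + X.dim) :=
        C.span_mem _ _ (C.pull_mem _ hv) (by omega)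
      exact SumThrough.of_mot (s := s' + s) (r := r + r') hp (C.comp_mem hA hβ (by omega))
        (C.comp_mem hα hB (by omega)) (by rw [dim_prod]; omega)
    | @mot γ' _ Z' p' hp' r' s' β' α' hβ' hα' hs' ih' =>
      rw [plus_eq, C.tensor_add, compose_eq, compose_eq, ← C.comp_tensor, ← C.comp_tensor]
      refine ih'.add ?_
      exact SumThrough.of_mot (s := s + s') (r := r + r') (hQ _ _ _ _ hp hp')
        (C.tensor_mem hβ hβ')
        (by
          have := C.tensor_mem hα hα'
          rw [dim_prod]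
          have e : Z.dim + r + (Z'.dim + r') = Z.dim + Z'.dim + (r + r') := by omega
          rwa [e] at this)
        (by rw [dim_prod]; omega)

end SumThrough

/-! ### the motives `h^1(E_1) ⊗ ⋯ ⊗ h^1(E_w)` -/

lemma midProj_eq (e : C.CH E) : midProj C e = curveCK C e 1 := rfl

lemma CurveMotive.weight {Z : 𝒱.Obj} {w : ℕ} {p : C.CH (Z.prod Z)} (h : CurveMotive C Z w p) :
    w = Z.dim := by
  induction h with
  | curve hE _ _ => exact hE.symm
  | prod _ _ ih ih' => rw [dim_prod, ih, ih']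

lemma transp_tensor (p : C.CH (X.prod X)) (q : C.CH (Y.prod Y)) :
    C.transp (C.tensor p q) = C.tensor (C.transp p) (C.transp q) := by
  rw [ChowTheory.transp, ChowTheory.tensor, ChowTheory.tensor, ChowTheory.transp,
    ChowTheory.transp]
  simp only [C.pull_mul, ← C.pull_comp]
  have e1 : swap (X.prod Y) (X.prod Y) ≫ prodMap (fst X Y) (fst X Y) =
      prodMap (fst X Y) (fst X Y) ≫ swap X X := by
    apply hom_ext_prod <;> simp
  have e2 : swap (X.prod Y) (X.prod Y) ≫ prodMap (snd X Y) (snd X Y) =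
      prodMap (snd X Y) (snd X Y) ≫ swap Y Y := by
    apply hom_ext_prod <;> simp
  rw [e1, e2]

lemma CurveMotive.transp {Z : 𝒱.Obj} {w : ℕ} {p : C.CH (Z.prod Z)} (h : CurveMotive C Z w p) :
    C.transp p = p := by
  induction h with
  | @curve E e hE _ _ =>
    change C.transp (C.diagC E - C.ext e 1 - C.ext 1 e) = C.diagC E - C.ext e 1 - C.ext 1 e
    rw [transp_sub, transp_sub, C.transp_diagC, transp_ext, transp_ext]
    abel
  | prod _ _ ih ih' => rw [tens_eq, transp_tensor, ih, ih']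

lemma kills_tensor {a b l : ℕ} {p : C.CH (X.prod X)} {q : C.CH (Y.prod Y)}
    (hp : p ∈ C.gr (X.prod X) X.dim) (hq : q ∈ C.gr (Y.prod Y) Y.dim)
    (hpk : ∀ l, l ≠ a → Kills W p l) (hqk : ∀ l, l ≠ b → Kills W q l) (hl : l ≠ a + b) :
    Kills W (C.tensor p q) l := by
  have key : ∀ c, W.act (C.tensor p q) c =
      W.act (C.tensor p q) (projH W (X.prod Y) (a + b) c) := by
    intro c
    refine W.kunneth_induction (p := fun c => W.act (C.tensor p q) c =
      W.act (C.tensor p q) (projH W (X.prod Y) (a + b) c)) ?_ ?_ c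
    · intro c c' hc hc'; rw [map_add, map_add, map_add, hc, hc']
    · intro i j x hx y hy
      have hxy := W.mul_mem (W.map_mem (fst X Y) hx) (W.map_mem (snd X Y) hy)
      rw [projH_apply hxy]
      split_ifs with hij
      · rfl
      · rw [map_zero, act_tensor_prod hq (act_mem_H hp hx rfl)]
        by_cases hi : i = a
        · rw [hqk j (by omega) y hy, map_zero, mul_zero]
        · rw [hpk i hi x hx, map_zero, zero_mul]
  intro c hc
  rw [key, projH_apply hc, if_neg hl, map_zero]

theorem pureFamily_curveMotive (W : WeilTheory.{u, v, w} C) : PureFamily W (CurveMotive C) := by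
  have hself : ∀ (Z : 𝒱.Obj) (w : ℕ) (p : C.CH (Z.prod Z)), CurveMotive C Z w p →
      p ∈ C.gr (Z.prod Z) Z.dim := by
    intro Z w p h
    induction h with
    | @curve E e hE he hd =>
      rw [midProj_eq]
      exact (isCK_curveCK (W := W) hE he hd).mem 1
    | prod _ _ ih ih' =>
      have := C.tensor_mem ih ih'
      rw [tens_eq, dim_prod]
      exact this
  refine ⟨hself, ?_, ?_, ?_, ?_, ?_⟩
  · intro Z w p h
    rw [compose_eq]
    induction h with
    | @curve E e hE he hd =>
      rw [midProj_eq]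
      exact (isCK_curveCK (W := W) hE he hd).idem 1
    | prod _ _ ih ih' => rw [tens_eq, C.comp_tensor, ih, ih']
  · intro Z w p h
    have := h.weight
    omega
  · intro Z w l p h
    induction h generalizing l with
    | @curve E e hE he hd =>
      intro hl a ha
      rw [midProj_eq, (isCK_curveCK (W := W) hE he hd).proj 1 l a ha, if_neg hl]
    | prod hp hq ih ih' =>
      intro hl
      rw [tens_eq]
      exact kills_tensor (hself _ _ _ hp) (hself _ _ _ hq) (fun l => ih l) (fun l => ih' l) hl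
  · intro Z w w' p h hw
    have h1 := h.weight
    have h2 : w' = w := by omega
    rw [dual_eq, h.transp, h2]
    exact h
  · intro Z Z' w w' p p' h h'
    exact CurveMotive.prod h h'

theorem sumThrough_curveProd (W : WeilTheory.{u, v, w} C) (hC : C.Polarized) {Z : 𝒱.Obj}
    (hZ : IsCurveProd Z) :
    SumThrough C (fun Z p => ∃ w, CurveMotive C Z w p) Z (C.diagC Z) := by
  induction hZ with
  | @curve E hE =>
    obtain ⟨e0, he0, hd0⟩ := hC E
    rw [hE, pow_one] at hd0
    obtain ⟨e, he, hd⟩ : ∃ e ∈ C.gr E 1, C.deg E e = 1 :=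
      ⟨(C.deg E e0)⁻¹ • e0, Submodule.smul_mem _ _ he0, by
        rw [map_smul, smul_eq_mul, inv_mul_cancel₀ hd0]⟩
    have h1 : SumThrough C (fun Z p => ∃ w, CurveMotive C Z w p) E (C.ext e 1) :=
      SumThrough.of_ext he (C.one_mem E) (by omega)
    have h2 : SumThrough C (fun Z p => ∃ w, CurveMotive C Z w p) E (C.ext 1 e) :=
      SumThrough.of_ext (C.one_mem E) he (by omega)
    have h3 : SumThrough C (fun Z p => ∃ w, CurveMotive C Z w p) E
        (C.comp (C.comp (C.diagC E) (midProj C e)) (C.diagC E)) :=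
      SumThrough.of_mot (r := 0) ⟨1, CurveMotive.curve hE he hd⟩ (C.diagC_mem E) (C.diagC_mem E)
        (add_zero _)
    have h4 := (h1.add h2).add h3
    rw [C.diagC_comp, C.comp_diagC] at h4
    have e1 : C.ext e 1 + C.ext 1 e + midProj C e = C.diagC E := by
      change C.ext e 1 + C.ext 1 e + (C.diagC E - C.ext e 1 - C.ext 1 e) = C.diagC E
      abel
    rwa [e1] at h4
  | @prod X Y _ _ ih ih' =>
    rw [← C.tensor_diagC]
    refine SumThrough.tensor ?_ ih ih'
    rintro Z Z' p p' ⟨w, hp⟩ ⟨w', hp'⟩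
    exact ⟨w + w', CurveMotive.prod hp hp'⟩

theorem curve_main (W : WeilTheory.{u, v, w} C) (hC : C.Polarized)
    (hX : ∀ X : 𝒱.Obj, SumThrough C (fun Z p => IsCurveProd Z ∧ p = C.diagC Z) X (C.diagC X)) :
    W.Kunneth ∧ ((∃ F : Family C, IsBB W F) ↔ PrimitiveVanishing W) := by
  have hX' : ∀ X : 𝒱.Obj,
      SumThrough C (fun Z p => ∃ w, CurveMotive C Z w p) X (C.diagC X) := by
    intro X
    refine (hX X).bind ?_
    rintro Z p ⟨hZ, rfl⟩
    exact sumThrough_curveProd W hC hZ
  obtain ⟨h1, h2⟩ := (pureFamily_curveMotive W).main hX'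
  refine ⟨h1, h2.trans ⟨?_, ?_⟩⟩
  · intro h Z n p hp m hm x hx hpx
    exact h Z n p hp m (Or.inl hm) x hx hpx
  · intro h Z n p hp m hm x hx hpx
    rcases hm with hm | hm
    · exact h Z n p hp m hm x hx hpx
    · have hx0 : x ∈ C.gr Z m := hx.1
      have hn := hp.weight
      rwa [C.gr_eq_bot Z m (by omega), Submodule.mem_bot] at hx0

end Pool.Agent.T6.H15.BB
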