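import Pool.Agent.T6.H15.BB.Curve

/-!
# The standard conjecture of Lefschetz type implies the one of Künneth type
-/

open CategoryTheory CategoryTheory.Limits AlgebraicGeometry Polynomial
open Pool.Agent.H914 Pool.Agent.H914.VarClass Pool.Agent.H914.VarClass.Obj Pool.Agent.R903
open Pool.Agent.R903.WeilTheory

universe u v w

namespace Pool.Agent.T6.H15.BB

variable {k : Type u} [Field k] {𝒱 : VarClass k} {C : ChowTheory.{u, v} 𝒱}
  {W : WeilTheory.{u, v, w} C} {X Y Z E : 𝒱.Obj}

/-- the projection to the component of degree `m` -/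
noncomputable def projH (W : WeilTheory.{u, v, w} C) (X : 𝒱.Obj) (m : ℕ) :
    Module.End W.K (W.H X) := scal (W.isInternal X) (fun i => if i = m then 1 else 0)

lemma projH_apply {m l : ℕ} {a : W.H X} (ha : a ∈ W.gr X l) :
    projH W X m a = if l = m then a else 0 := by
  rw [projH, scal_apply _ _ ha]
  split_ifs <;> simp

lemma projH_mem (m : ℕ) (a : W.H X) : projH W X m a ∈ W.gr X m := by
  refine gr_induction (W.isInternal X) (p := fun a => projH W X m a ∈ W.gr X m) ?_ ?_ a
  · intro l a ha
    rw [projH_apply ha]
    split_ifs with h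
    · rw [← h]; exact ha
    · exact Submodule.zero_mem _
  · intro a b ha hb
    rw [map_add]; exact Submodule.add_mem _ ha hb

lemma push_mem_H (f : X ⟶ Y) {n m : ℕ} {z : W.H X} (hz : z ∈ W.gr X n)
    (h : n + 2 * Y.dim = m + 2 * X.dim) : W.push f z ∈ W.gr Y m := by
  have key : W.push f z = projH W Y m (W.push f z) := by
    apply W.tr_ext
    intro c
    refine gr_induction (W.isInternal Y)
      (p := fun c => W.tr Y (W.push f z * c) = W.tr Y (projH W Y m (W.push f z) * c)) ?_ ?_ c
    · intro q c hc
      by_cases hq : m + q = 2 * Y.dim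
      · refine gr_induction (W.isInternal Y)
          (p := fun a => W.tr Y (a * c) = W.tr Y (projH W Y m a * c)) ?_ ?_ (W.push f z)
        · intro r a ha
          rw [projH_apply ha]
          split_ifs with hr
          · rfl
          · rw [zero_mul, map_zero]
            exact W.tr_eq_zero (W.mul_mem ha hc) (by omega)
        · intro a b ha hb
          rw [add_mul, map_add, ha, hb, map_add, add_mul, map_add]
      · rw [W.tr_push, W.tr_eq_zero (W.mul_mem hz (W.map_mem f hc)) (by omega),
          W.tr_eq_zero (W.mul_mem (projH_mem m _) hc) hq]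
    · intro a b ha hb
      rw [mul_add, map_add, ha, hb, mul_add, map_add]
  rw [key]
  exact projH_mem m _

lemma push_eq_zero_H (f : X ⟶ Y) {n : ℕ} {z : W.H X} (hz : z ∈ W.gr X n)
    (h : n + 2 * Y.dim < 2 * X.dim) : W.push f z = 0 := by
  apply W.nondeg
  intro c
  refine gr_induction (W.isInternal Y) (p := fun c => W.tr Y (W.push f z * c) = 0) ?_ ?_ c
  · intro q c hc
    rw [W.tr_push]
    by_cases hq : 2 * Y.dim < q
    · rw [W.gr_eq_bot Y q hq, Submodule.mem_bot] at hc
      rw [hc, map_zero, mul_zero, map_zero]
    · exact W.tr_eq_zero (W.mul_mem hz (W.map_mem f hc)) (by omega)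
  · intro a b ha hb
    rw [mul_add, map_add, ha, hb, add_zero]

/-- the action of a correspondence on the degrees in cohomology -/
lemma act_mem_H {γ : C.CH (X.prod Y)} {c l m : ℕ} (hγ : γ ∈ C.gr (X.prod Y) c) {a : W.H X}
    (ha : a ∈ W.gr X l) (h : l + 2 * c = m + 2 * X.dim) : W.act γ a ∈ W.gr Y m := by
  rw [W.act_apply]
  exact push_mem_H _ (W.mul_mem (W.cl_mem hγ) (W.map_mem _ ha)) (by rw [dim_prod]; omega)

lemma act_eq_zero_H {γ : C.CH (X.prod Y)} {c l : ℕ} (hγ : γ ∈ C.gr (X.prod Y) c) {a : W.H X}
    (ha : a ∈ W.gr X l) (h : l + 2 * c < 2 * X.dim) : W.act γ a = 0 := by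
  rw [W.act_apply]
  exact push_eq_zero_H _ (W.mul_mem (W.cl_mem hγ) (W.map_mem _ ha)) (by rw [dim_prod]; omega)

lemma act_transp_proj {π : C.CH (X.prod X)} (hπ : π ∈ C.gr (X.prod X) X.dim) {j : ℕ}
    (hp : IsProjector (W.gr X) j (W.act π)) {l : ℕ} {a : W.H X} (ha : a ∈ W.gr X l)
    (hl : l ≤ 2 * X.dim) : W.act (C.transp π) a = if l + j = 2 * X.dim then a else 0 := by
  rw [W.act_transp, W.coact_scal hπ (fun l => if l = j then 1 else 0) (fun l a ha => ?_) ha]
  · by_cases h : l + j = 2 * X.dim
    · rw [if_pos (by omega), if_pos h, one_smul]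
    · rw [if_neg (by omega), if_neg h, zero_smul]
  · rw [hp l a ha]; split_ifs <;> simp

theorem exists_proj_of_lefschetz {X : 𝒱.Obj} (hL : LefschetzStd W X) (j : ℕ) :
    ∃ π ∈ C.gr (X.prod X) X.dim, IsProjector (W.gr X) j (W.act π) := by
  classical
  have low : ∀ b : ℕ, b < X.dim → ∃ π ∈ C.gr (X.prod X) X.dim,
      IsProjector (W.gr X) b (W.act π) := by
    intro b
    induction b using Nat.strong_induction_on with
    | _ b ih =>
      intro hb
      have ih' : ∀ j : ℕ, ∃ π : C.CH (X.prod X), j < b → π ∈ C.gr (X.prod X) X.dim ∧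
          IsProjector (W.gr X) j (W.act π) := by
        intro j
        by_cases hj : j < b
        · obtain ⟨π, h1, h2⟩ := ih j hj (by omega)
          exact ⟨π, fun _ => ⟨h1, h2⟩⟩
        · exact ⟨0, fun h => absurd h hj⟩
      choose P hP using ih'
      obtain ⟨μ, lam, hμ, hlam, hid⟩ := hL b hb
      have hμ' : μ ∈ C.gr (X.prod X) (2 * X.dim - b) := hμ
      have hlam' : lam ∈ C.gr (X.prod X) b := hlam
      set A := C.diagC X - ∑ j ∈ Finset.range b, P j with hA
      set B := C.diagC X - ∑ j ∈ Finset.range b, C.transp (P j) with hB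
      have hAm : A ∈ C.gr (X.prod X) X.dim := Submodule.sub_mem _ (C.diagC_mem X)
        (Submodule.sum_mem _ fun j hj => (hP j (Finset.mem_range.1 hj)).1)
      have hBm : B ∈ C.gr (X.prod X) X.dim := Submodule.sub_mem _ (C.diagC_mem X)
        (Submodule.sum_mem _ fun j hj => C.transp_mem (hP j (Finset.mem_range.1 hj)).1)
      have hAact : ∀ l, ∀ a ∈ W.gr X l, W.act A a = if l < b then 0 else a := by
        intro l a ha
        rw [hA, W.act_sub, LinearMap.sub_apply, W.act_diagC, W.act_sum, LinearMap.sum_apply]
        split_ifs with hl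
        · rw [Finset.sum_eq_single l]
          · rw [(hP l hl).2 l a ha, if_pos rfl, sub_self]
          · intro j hj hjl
            rw [(hP j (Finset.mem_range.1 hj)).2 l a ha, if_neg (Ne.symm hjl)]
          · intro h; exact absurd (Finset.mem_range.2 hl) h
        · rw [Finset.sum_eq_zero, sub_zero]
          intro j hj
          rw [Finset.mem_range] at hj
          rw [(hP j hj).2 l a ha, if_neg (by omega)]
      have hBact : ∀ l, ∀ a ∈ W.gr X l, W.act B a = if l + b ≤ 2 * X.dim then a else 0 := by
        intro l a ha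
        by_cases hl2 : 2 * X.dim < l
        · rw [W.gr_eq_bot X l hl2, Submodule.mem_bot] at ha
          rw [ha]; simp
        rw [hB, W.act_sub, LinearMap.sub_apply, W.act_diagC, W.act_sum, LinearMap.sum_apply]
        split_ifs with hl
        · rw [Finset.sum_eq_zero, sub_zero]
          intro j hj
          rw [Finset.mem_range] at hj
          rw [act_transp_proj (hP j hj).1 (hP j hj).2 ha (by omega), if_neg (by omega)]
        · rw [Finset.sum_eq_single (2 * X.dim - l)]
          · have h3 := hP (2 * X.dim - l) (by omega)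
            rw [act_transp_proj h3.1 h3.2 ha (by omega), if_pos (by omega), sub_self]
          · intro j hj hjl
            rw [Finset.mem_range] at hj
            rw [act_transp_proj (hP j hj).1 (hP j hj).2 ha (by omega), if_neg (by omega)]
          · intro h
            exact absurd (Finset.mem_range.2 (by omega)) h
      refine ⟨C.comp (C.comp (C.comp A μ) B) lam, ?_, ?_⟩
      · exact C.comp_mem (C.comp_mem (C.comp_mem hAm hμ' (add_comm _ _)) hBm rfl) hlam'
          (by omega)
      · intro l a ha
        rw [W.act_comp _ hlam', W.act_comp _ hBm, W.act_comp _ hμ', hAact l a ha]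
        rcases lt_trichotomy l b with hl | hl | hl
        · rw [if_pos hl, if_neg (by omega), map_zero, map_zero, map_zero]
        · subst hl
          have h5 := act_mem_H (m := 2 * X.dim - l) hμ' ha (by omega)
          rw [if_neg (by omega), if_pos rfl, hBact _ _ h5, if_pos (by omega)]
          exact hid a ha
        · by_cases hl2 : 2 * X.dim < l
          · rw [W.gr_eq_bot X l hl2, Submodule.mem_bot] at ha
            rw [ha]; simp
          have h5 := act_mem_H (m := l + 2 * X.dim - 2 * b) hμ' ha (by omega)
          rw [if_neg (by omega), if_neg (by omega), hBact _ _ h5, if_neg (by omega), map_zero]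
  have low' : ∀ j : ℕ, ∃ π : C.CH (X.prod X), j < X.dim → π ∈ C.gr (X.prod X) X.dim ∧
      IsProjector (W.gr X) j (W.act π) := by
    intro j
    by_cases hj : j < X.dim
    · obtain ⟨π, h1, h2⟩ := low j hj
      exact ⟨π, fun _ => ⟨h1, h2⟩⟩
    · exact ⟨0, fun h => absurd h hj⟩
  choose P hP using low'
  rcases lt_trichotomy j X.dim with hj | hj | hj
  · exact ⟨P j, (hP j hj).1, (hP j hj).2⟩
  · subst hj
    refine ⟨C.diagC X - ∑ j ∈ Finset.range X.dim, (P j + C.transp (P j)), ?_, ?_⟩
    · exact Submodule.sub_mem _ (C.diagC_mem X) (Submodule.sum_mem _ fun j hj =>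
        Submodule.add_mem _ (hP j (Finset.mem_range.1 hj)).1
          (C.transp_mem (hP j (Finset.mem_range.1 hj)).1))
    · intro l a ha
      by_cases hl2 : 2 * X.dim < l
      · rw [W.gr_eq_bot X l hl2, Submodule.mem_bot] at ha
        rw [ha]; simp
      rw [W.act_sub, LinearMap.sub_apply, W.act_diagC, W.act_sum, LinearMap.sum_apply]
      have h6 : ∀ j ∈ Finset.range X.dim, W.act (P j + C.transp (P j)) a =
          (if l = j then a else 0) + (if l + j = 2 * X.dim then a else 0) := by
        intro j hj
        rw [Finset.mem_range] at hj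
        rw [W.act_add, LinearMap.add_apply, (hP j hj).2 l a ha,
          act_transp_proj (hP j hj).1 (hP j hj).2 ha (by omega)]
      rw [Finset.sum_congr rfl h6]
      rcases lt_trichotomy l X.dim with hl | hl | hl
      · rw [Finset.sum_eq_single l]
        · rw [if_pos rfl, if_neg (by omega), if_neg (by omega), add_zero, sub_self]
        · intro j hj hjl
          rw [Finset.mem_range] at hj
          rw [if_neg (Ne.symm hjl), if_neg (by omega), add_zero]
        · intro h; exact absurd (Finset.mem_range.2 hl) h
      · rw [Finset.sum_eq_zero, sub_zero, if_pos hl]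
        intro j hj
        rw [Finset.mem_range] at hj
        rw [if_neg (by omega), if_neg (by omega), add_zero]
      · rw [Finset.sum_eq_single (2 * X.dim - l)]
        · rw [if_neg (by omega), if_pos (by omega), if_neg (by omega), zero_add, sub_self]
        · intro j hj hjl
          rw [Finset.mem_range] at hj
          rw [if_neg (by omega), if_neg (by omega), add_zero]
        · intro h; exact absurd (Finset.mem_range.2 (by omega)) h
  · by_cases hj2 : 2 * X.dim < j
    · refine ⟨0, Submodule.zero_mem _, fun l a ha => ?_⟩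
      rw [W.act_zero, LinearMap.zero_apply]
      split_ifs with hl
      · subst hl
        rw [W.gr_eq_bot X l hj2, Submodule.mem_bot] at ha
        rw [ha]
      · rfl
    · have h7 := hP (2 * X.dim - j) (by omega)
      refine ⟨C.transp (P (2 * X.dim - j)), C.transp_mem h7.1, fun l a ha => ?_⟩
      by_cases hl2 : 2 * X.dim < l
      · rw [W.gr_eq_bot X l hl2, Submodule.mem_bot] at ha
        rw [ha]; simp
      rw [act_transp_proj h7.1 h7.2 ha (by omega)]
      by_cases hl : l = j
      · rw [if_pos (by omega), if_pos hl]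
      · rw [if_neg (by omega), if_neg hl]

end Pool.Agent.T6.H15.BB
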