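import Pool.Agent.T6.H15.BB.Defs

/-!
# Weight filtrations on the Chow groups of one variety: definitions
-/

open CategoryTheory CategoryTheory.Limits AlgebraicGeometry
open Pool.Agent.H914 Pool.Agent.H914.VarClass Pool.Agent.H914.VarClass.Obj Pool.Agent.R903

universe u v w

namespace Pool.Agent.T6.H15.BB

variable {k : Type u} [Field k] {𝒱 : VarClass k} {C : ChowTheory.{u, v} 𝒱}

/-- `δ` is a degree operator of `X`: a correspondence in `CH^(dim X)(X × X)` which acts on `H^j(X)` as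
multiplication by `j`, for all `j`. -/
def IsDegOp (W : WeilTheory.{u, v, w} C) (X : 𝒱.Obj) (δ : C.CH (X.prod X)) : Prop :=
  IsSelfCorr C X δ ∧ ActsAsDegree (W.gr X) (W.act δ)

/-- The subspaces `G i k` (for `F^k CH^i(X)`) form a **weight filtration** on the Chow groups of the
single variety `X`: a descending filtration with `F^0 CH^i(X) = CH^i(X)`, `F^1 CH^i(X) = ker(cl)` and
`F^(i+1) CH^i(X) = 0`, such that each degree operator `δ` of `X` acts on `F^k / F^(k+1)` as
multiplication by `2i - k`. -/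
structure IsWeightFil (W : WeilTheory.{u, v, w} C) (X : 𝒱.Obj)
    (G : ℕ → ℕ → Submodule ℚ (C.CH X)) : Prop where
  anti : ∀ (i k : ℕ) (x : C.CH X), MemSub (G i (k + 1)) x → MemSub (G i k) x
  zero : ∀ (i : ℕ) (x : C.CH X), MemSub (G i 0) x ↔ InCH C X i x
  one : ∀ (i : ℕ) (x : C.CH X), MemSub (G i 1) x ↔ HomTrivial W X i x
  top : ∀ (i : ℕ) (x : C.CH X), MemSub (G i (i + 1)) x → x = 0
  weight : ∀ δ : C.CH (X.prod X), IsDegOp W X δ → ∀ i j k : ℕ, j + k = 2 * i →
    ∀ x, MemSub (G i k) x → MemSub (G i (k + 1)) (corrAct C δ x - (j : ℚ) • x)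

end Pool.Agent.T6.H15.BB
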