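import Pool.Agent.T6.H15.BB.Core

/-!
# Existence of Bloch–Beilinson filtrations
-/

open CategoryTheory CategoryTheory.Limits AlgebraicGeometry Polynomial
open Pool.Agent.H914 Pool.Agent.H914.VarClass Pool.Agent.H914.VarClass.Obj Pool.Agent.R903
open Pool.Agent.R903.WeilTheory

universe u v w

namespace Pool.Agent.T6.H15.BB

variable {k : Type u} [Field k] {𝒱 : VarClass k} {C : ChowTheory.{u, v} 𝒱}
  {W : WeilTheory.{u, v, w} C} {S : 𝒱.Obj → Prop}

lemma isBB_iff {F : Family C} : IsBB W F ↔ BBCore W (fun _ => True) F := by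
  constructor
  · intro h
    exact
      { anti := fun X _ i k x hx => h.fil.anti X i k x hx
        zero := fun X _ i => Submodule.ext fun x => h.fil.zero X i x
        one := fun X _ i x => h.fil.one X i x
        top := fun X _ i => (Submodule.eq_bot_iff _).2 fun x hx => h.fil.top X i x hx
        mul := fun X _ i j k l x hx y hy => h.functorial.mul X i j k l x y hx hy
        pull := fun X Y _ _ f i k y hy => h.functorial.pull f i k y hy
        push := fun X Y _ _ f i j k hij x hx => h.functorial.push f i j k x hij hx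
        corr := fun X _ i j k hjk γ hγ h0 x hx => h.motivic X i j k hjk γ hγ h0 x hx }
  · intro h
    refine ⟨⟨fun X i k x hx => ?_, fun X i x => ?_, fun X i x => ?_, fun X i x hx => ?_⟩,
      ⟨fun X i j k l x y hx hy => ?_, fun {X Y} f i k y hy => ?_,
        fun {X Y} f i j k x hij hx => ?_⟩, fun X i j k hjk γ hγ h0 x hx => ?_⟩
    · exact h.anti X trivial i k hx
    · rw [InF, h.zero X trivial i]; rfl
    · exact h.one X trivial i x
    · rw [InF, h.top X trivial i] at hx; exact (Submodule.mem_bot ℚ).1 hx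
    · exact h.mul X trivial i j k l x hx y hy
    · exact h.pull X Y trivial trivial f i k y hy
    · exact h.push X Y trivial trivial f i j k hij x hx
    · exact h.corr X trivial i j k hjk γ hγ h0 x hx

/-- The weak form of property 5: degree operators of `X` act on `Gr^k CH^i(X)` as multiplication
by `2i - k`. -/
def DegOn (W : WeilTheory.{u, v, w} C) (S : 𝒱.Obj → Prop) (F : Family C) : Prop :=
  ∀ X, S X → ∀ δ, W.IsDegree X δ → ∀ i j k : ℕ, j + k = 2 * i → ∀ x ∈ F X i k,
    C.act δ x - (j : ℚ) • x ∈ F X i (k + 1)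

lemma kills_sub_smul {X : 𝒱.Obj} {δ : C.CH (X.prod X)} (hδ : W.IsDegree X δ) (j : ℕ) :
    Kills W (δ - (j : ℚ) • C.diagC X) j := by
  intro a ha
  rw [W.act_sub, W.act_smul, LinearMap.sub_apply, LinearMap.smul_apply, W.act_diagC, hδ.2 j a ha]
  push_cast
  rw [sub_self]

lemma BBCore.deg {F : Family C} (h : BBCore W S F) : DegOn W S F := by
  intro X hX δ hδ i j k hjk x hx
  have := h.corr X hX i j k hjk (δ - (j : ℚ) • C.diagC X)
    (Submodule.sub_mem _ hδ.1 (Submodule.smul_mem _ _ (C.diagC_mem X))) (kills_sub_smul hδ j) x hx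
  rwa [C.act_sub, C.act_smul, LinearMap.sub_apply, LinearMap.smul_apply, C.act_diagC] at this

/-- a descending family is antitone -/
lemma FilCore.anti' {F : Family C} (h : FilCore W S F) {X : 𝒱.Obj} (hX : S X) (i : ℕ) {k l : ℕ}
    (hkl : k ≤ l) : F X i l ≤ F X i k := by
  induction l, hkl using Nat.le_induction with
  | base => exact le_rfl
  | succ l _ ih => exact (h.anti X hX i l).trans ih

lemma FilCore.top' {F : Family C} (h : FilCore W S F) {X : 𝒱.Obj} (hX : S X) {i l : ℕ}
    (hl : i + 1 ≤ l) {x : C.CH X} (hx : x ∈ F X i l) : x = 0 := by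
  have := h.anti' hX i hl hx
  rwa [h.top X hX, Submodule.mem_bot] at this

theorem DegOn.eig {F : Family C} (hF : FilCore W S F) (h : DegOn W S F) : EigOn W S := by
  intro X hX δ hδ i c hc x hx hcx
  have key : ∀ n, n ≤ i → (∏ m ∈ Finset.range n, ((c : ℚ) - ((2 * i - 1 - m : ℕ) : ℚ))) • x ∈
      F X i (n + 1) := by
    intro n hn
    induction n with
    | zero =>
      rw [Finset.prod_range_zero, one_smul]
      exact (hF.one X hX i x).2 hx
    | succ n ih =>
      have h1 := h X hX δ hδ i (2 * i - 1 - n) (n + 1) (by omega) _ (ih (by omega))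
      rw [map_smul, hcx, smul_comm, ← sub_smul, smul_smul, mul_comm] at h1
      rwa [Finset.prod_range_succ]
  have h1 := key i le_rfl
  rw [hF.top X hX, Submodule.mem_bot] at h1
  refine (smul_eq_zero.1 h1).resolve_left ?_
  rw [← ne_eq, Finset.prod_ne_zero_iff]
  intro m hm
  rw [Finset.mem_range] at hm
  rw [sub_ne_zero]
  intro h2
  rw [Nat.cast_inj] at h2
  omega

/-- the action of a polynomial in the degree operator of a decomposition -/
lemma act_polyC_degCK {X : 𝒱.Obj} {π : ℕ → C.CH (X.prod X)} (h : W.IsCK X π) (p : ℚ[X])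
    (x : C.CH X) : C.act (polyC C (degCK C π) p) x =
      ∑ l ∈ Finset.range (2 * X.dim + 1), p.eval (l : ℚ) • C.act (π l) x := by
  conv_lhs => rw [← h.sum_act x]
  rw [map_sum]
  refine Finset.sum_congr rfl fun l _ => ?_
  exact act_polyC_eigen (act_degCK h l x) p

lemma act_lag_degCK {X : 𝒱.Obj} {π : ℕ → C.CH (X.prod X)} (h : W.IsCK X π) {l : ℕ}
    (hl : l ∈ Finset.range (2 * X.dim + 1)) (x : C.CH X) :
    C.act (polyC C (degCK C π) (lag (Finset.range (2 * X.dim + 1)) l)) x = C.act (π l) x := by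
  rw [act_polyC_degCK h, Finset.sum_eq_single l]
  · rw [eval_lag hl, if_pos rfl, one_smul]
  · intro m hm hml
    rw [eval_lag hm, if_neg hml, zero_smul]
  · intro h; exact absurd hl h

/-- The filtration is determined by the weak form of property 5. -/
theorem DegOn.eq_ckFil {F : Family C} (hF : FilCore W S F) (h : DegOn W S F) {X : 𝒱.Obj}
    (hX : S X) {π : ℕ → C.CH (X.prod X)} (hπ : W.IsCK X π) (i n : ℕ) :
    F X i n = C.ckFil π i n := by
  have hδ := isDegree_degCK hπ
  -- stability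
  have hst : ∀ m, ∀ x ∈ F X i m, C.act (degCK C π) x ∈ F X i m := by
    intro m x hx
    by_cases hm : m ≤ 2 * i
    · have h1 := hF.anti X hX i m (h X hX _ hδ i (2 * i - m) m (by omega) x hx)
      have h2 := Submodule.add_mem _ h1
        (Submodule.smul_mem (F X i m) (((2 * i - m : ℕ) : ℚ)) hx)
      rwa [sub_add_cancel] at h2
    · rw [hF.top' hX (by omega) hx, map_zero]
      exact Submodule.zero_mem _
  have hst2 : ∀ m (p : ℚ[X]), ∀ x ∈ F X i m, C.act (polyC C (degCK C π) p) x ∈ F X i m := by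
    intro m p x hx
    rw [act_polyC]
    induction p using Polynomial.induction_on' with
    | add p q hp hq => rw [map_add, LinearMap.add_apply]; exact Submodule.add_mem _ hp hq
    | monomial n a =>
      rw [aeval_monomial, Module.End.mul_apply, Module.algebraMap_end_apply]
      refine Submodule.smul_mem _ _ ?_
      induction n with
      | zero => simpa using hx
      | succ n ih => rw [pow_succ', Module.End.mul_apply]; exact hst m _ ih
  have hst3 : ∀ m l, ∀ x ∈ F X i m, C.act (π l) x ∈ F X i m := by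
    intro m l x hx
    by_cases hl : l ∈ Finset.range (2 * X.dim + 1)
    · rw [← act_lag_degCK hπ hl]
      exact hst2 m _ x hx
    · rw [Finset.mem_range, not_lt] at hl
      rw [hπ.eq_zero (by omega), C.act_zero, LinearMap.zero_apply]
      exact Submodule.zero_mem _
  -- the step
  have step : ∀ m l, l + m ≠ 2 * i → ∀ x, C.act (π l) x ∈ F X i m →
      C.act (π l) x ∈ F X i (m + 1) := by
    intro m l hlm x hx
    by_cases hm : m ≤ 2 * i
    · have h1 := h X hX _ hδ i (2 * i - m) m (by omega) _ hx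
      rw [act_degCK hπ, ← sub_smul] at h1
      have h2 : ((l : ℚ) - ((2 * i - m : ℕ) : ℚ)) ≠ 0 := by
        rw [sub_ne_zero]
        intro h3
        rw [Nat.cast_inj] at h3
        omega
      have h3 := Submodule.smul_mem (F X i (m + 1)) ((l : ℚ) - ((2 * i - m : ℕ) : ℚ))⁻¹ h1
      rwa [smul_smul, inv_mul_cancel₀ h2, one_smul] at h3
    · rw [hF.top' hX (by omega) hx]
      exact Submodule.zero_mem _
  ext x
  rw [mem_ckFil hπ]
  constructor
  · intro hx
    refine ⟨?_, fun b hb => ?_⟩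
    · have := hF.anti' hX i (Nat.zero_le n) hx
      rwa [hF.zero X hX] at this
    · have h1 : ∀ m, C.act (π b) x ∈ F X i (n + m) := by
        intro m
        induction m with
        | zero => exact hst3 n b x hx
        | succ m ih => exact step (n + m) b (by omega) x ih
      exact hF.top' hX (by omega) (h1 (i + 1))
  · rintro ⟨hx, h0⟩
    have h1 : ∀ b m, b + m ≤ 2 * i → C.act (π b) x ∈ F X i m := by
      intro b m
      induction m with
      | zero =>
        intro _
        rw [hF.zero X hX]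
        exact C.act_mem (hπ.mem b) hx rfl
      | succ m ih =>
        intro hbm
        exact step m b (by omega) x (ih (by omega))
    rw [← hπ.sum_act x]
    refine Submodule.sum_mem _ fun b _ => ?_
    by_cases hb : 2 * i < b + n
    · rw [h0 b hb]
      exact Submodule.zero_mem _
    · exact h1 b n (by omega)

/-- The filtration given by Chow–Künneth decompositions. -/
theorem GoodOn.bbCore (hS : ∀ X Y, S X → S Y → S (X.prod Y)) (hG : GoodOn W S) {F : Family C}
    (hF : ∀ X, S X → ∀ π, W.IsCK X π → ∀ i n, F X i n = C.ckFil π i n) : BBCore W S F where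
  anti X hX i n := by
    obtain ⟨π, hπ⟩ := hG.ck X hX
    rw [hF X hX π hπ, hF X hX π hπ]
    exact ckFil_anti hπ (Nat.le_succ n)
  zero X hX i := by
    obtain ⟨π, hπ⟩ := hG.ck X hX
    rw [hF X hX π hπ, hG.ckFil_zero hX hπ]
  one X hX i x := by
    obtain ⟨π, hπ⟩ := hG.ck X hX
    rw [hF X hX π hπ, hG.ckFil_one hX hπ]
  top X hX i := by
    obtain ⟨π, hπ⟩ := hG.ck X hX
    rw [hF X hX π hπ, hG.ckFil_top hX hπ]
  mul X hX i j m n x hx y hy := by
    obtain ⟨π, hπ⟩ := hG.ck X hX
    rw [hF X hX π hπ] at hx hy ⊢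
    exact hG.mul_mem hS hX hπ hx hy
  pull X Y hX hY f i n y hy := by
    obtain ⟨π, hπ⟩ := hG.ck X hX
    obtain ⟨ρ, hρ⟩ := hG.ck Y hY
    rw [hF X hX π hπ]
    rw [hF Y hY ρ hρ] at hy
    rw [← C.act_cograph]
    exact (hG.act_mem hS hY hX hρ hπ (C.cograph_mem f) rfl hy).1
  push X Y hX hY f i j n hij x hx := by
    obtain ⟨π, hπ⟩ := hG.ck X hX
    obtain ⟨ρ, hρ⟩ := hG.ck Y hY
    rw [hF X hX π hπ] at hx
    rw [hF Y hY ρ hρ]
    rw [← C.act_graph]
    exact (hG.act_mem hS hX hY hπ hρ (C.graph_mem f) hij hx).1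
  corr X hX i j n hjn γ hγ h0 x hx := by
    obtain ⟨π, hπ⟩ := hG.ck X hX
    rw [hF X hX π hπ] at hx ⊢
    refine (hG.act_mem hS hX hX hπ hπ hγ rfl hx).2 fun l hl => ?_
    have : l = j := by omega
    rwa [this]

theorem GoodOn.exists_bbCore (hS : ∀ X Y, S X → S Y → S (X.prod Y)) (hG : GoodOn W S) :
    ∃ F : Family C, BBCore W S F ∧
      ∀ X, S X → ∀ π, W.IsCK X π → ∀ i n, F X i n = C.ckFil π i n := by
  classical
  have h : ∀ X : 𝒱.Obj, ∃ G : ℕ → ℕ → Submodule ℚ (C.CH X), S X → ∀ π, W.IsCK X π →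
      ∀ i n, G i n = C.ckFil π i n := by
    intro X
    by_cases hX : S X
    · obtain ⟨π, hπ⟩ := hG.ck X hX
      exact ⟨fun i n => C.ckFil π i n, fun _ ρ hρ i n => hG.indep hS hX hπ hρ i n⟩
    · exact ⟨fun _ _ => ⊥, fun h => absurd h hX⟩
  choose F hF using h
  exact ⟨F, hG.bbCore hS (fun X hX => hF X hX), fun X hX => hF X hX⟩

lemma kunnethOn_of_ck (h : ∀ X, S X → W.HasCK X) : KunnethOn W S := by
  intro X hX j
  obtain ⟨π, hπ⟩ := h X hX
  exact ⟨π j, hπ.mem j, hπ.proj j⟩

/-- The condition on fixed classes. -/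
def FixOn (W : WeilTheory.{u, v, w} C) (S : 𝒱.Obj → Prop) : Prop :=
  ∀ X, S X → ∀ i : ℕ, ∀ γ ∈ C.gr (X.prod X) X.dim, (∀ j, i ≤ j → j < 2 * i → Kills W γ j) →
    ∀ x, HomTrivial W X i x → C.act γ x = x → x = 0

/-- `∏ (δ - l)`, `i ≤ l < 2i` -/
noncomputable def midPoly (i : ℕ) : ℚ[X] := nodes (Finset.Ico i (2 * i))

lemma kills_midPoly {X : 𝒱.Obj} {δ : C.CH (X.prod X)} (hδ : W.IsDegree X δ) {i j : ℕ}
    (h1 : i ≤ j) (h2 : j < 2 * i) (q : ℚ) : Kills W (q • polyC C δ (midPoly i)) j := by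
  intro a ha
  rw [W.act_smul, LinearMap.smul_apply, actH_polyC hδ _ ha, midPoly,
    eval_nodes_eq_zero (Finset.mem_Ico.2 ⟨h1, h2⟩), Rat.cast_zero, zero_smul, smul_zero]

/-- rational eigenvalues -/
theorem FixOn.eigQ (hX : FixOn W S) {X : 𝒱.Obj} (h : S X) {δ : C.CH (X.prod X)}
    (hδ : W.IsDegree X δ) {i : ℕ} {c : ℚ} {x : C.CH X} (hx : HomTrivial W X i x)
    (hc : C.act δ x = c • x) (h0 : x ≠ 0) : ∃ j : ℕ, i ≤ j ∧ j < 2 * i ∧ c = j := by
  by_contra hne
  have hc0 : (midPoly i).eval c ≠ 0 := by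
    rw [midPoly, eval_nodes, Finset.prod_ne_zero_iff]
    intro l hl
    rw [Finset.mem_Ico] at hl
    rw [sub_ne_zero]
    intro h
    exact hne ⟨l, hl.1, hl.2, h⟩
  refine h0 (hX X h i (((midPoly i).eval c)⁻¹ • polyC C δ (midPoly i))
    (Submodule.smul_mem _ _ (polyC_mem hδ.1 _)) (fun j h1 h2 => kills_midPoly hδ h1 h2 _) x hx ?_)
  rw [C.act_smul, LinearMap.smul_apply, act_polyC_eigen hc, smul_smul, inv_mul_cancel₀ hc0,
    one_smul]

theorem FixOn.eig (h : FixOn W S) : EigOn W S := by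
  intro X hX δ hδ i c hc x hx hcx
  by_contra h0
  obtain ⟨j, h1, h2, h3⟩ := h.eigQ hX hδ hx hcx h0
  rw [Nat.cast_inj] at h3
  omega

/-- good decompositions exclude fixed classes -/
theorem GoodOn.fix (hS : ∀ X Y, S X → S Y → S (X.prod Y)) (hG : GoodOn W S) : FixOn W S := by
  intro X hX i γ hγ h0 x hx hfix
  obtain ⟨π, hπ⟩ := hG.ck X hX
  have key : ∀ n, n ≤ i → x ∈ C.ckFil π i (n + 1) := by
    intro n
    induction n with
    | zero => intro _; exact (hG.ckFil_one hX hπ i x).2 hx
    | succ n ih =>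
      intro hn
      have := (hG.act_mem hS hX hX hπ hπ hγ rfl (ih (by omega))).2
        (fun l hl => h0 l (by omega) (by omega))
      rwa [hfix] at this
  have h1 := key i le_rfl
  rwa [hG.ckFil_top hX hπ, Submodule.mem_bot] at h1

end Pool.Agent.T6.H15.BB
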