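import Pool.Agent.T6.H15.BB.LocalDefs

/-!
# Homologically trivial cycles of middle weight or middle codimension: definitions
-/

open CategoryTheory CategoryTheory.Limits AlgebraicGeometry
open Pool.Agent.H914 Pool.Agent.H914.VarClass Pool.Agent.H914.VarClass.Obj Pool.Agent.R903

universe u v w

namespace Pool.Agent.T6.H15.BB

/-- `T(U(a)) = a` for all `a` in the subspace `S`. -/
def LeftInvOn {K : Type w} [Field K] {V : Type w} [AddCommGroup V] [Module K V]
    (S : Submodule K V) (T U : V →ₗ[K] V) : Prop := ∀ a ∈ S, T (U a) = a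

variable {k : Type u} [Field k] {𝒱 : VarClass k} {C : ChowTheory.{u, v} 𝒱}

/-- Properties 1 and 2 of a Bloch–Beilinson filtration, with `F^(t(i)) CH^i(X) = 0`. Property 2 is
the case `t(i) = i + 1`. -/
structure IsFilT (t : ℕ → ℕ) (W : WeilTheory.{u, v, w} C) (F : Family C) : Prop where
  anti : ∀ (X : 𝒱.Obj) (i k : ℕ) (x : C.CH X), InF F X i (k + 1) x → InF F X i k x
  zero : ∀ (X : 𝒱.Obj) (i : ℕ) (x : C.CH X), InF F X i 0 x ↔ InCH C X i x
  one : ∀ (X : 𝒱.Obj) (i : ℕ) (x : C.CH X), InF F X i 1 x ↔ HomTrivial W X i x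
  top : ∀ (X : 𝒱.Obj) (i : ℕ) (x : C.CH X), InF F X i (t i) x → x = 0

/-- `F` has the properties 1, 3, 4 and 5 of a Bloch–Beilinson filtration, and
`F^(t(i)) CH^i(X) = 0`. For `t(i) = i + 1` this is a **Bloch–Beilinson filtration**. -/
structure IsBBT (t : ℕ → ℕ) (W : WeilTheory.{u, v, w} C) (F : Family C) : Prop where
  fil : IsFilT t W F
  functorial : IsFunctorial F
  motivic : IsMotivic W F

/-- The class `𝒱` contains a curve with a zero-cycle of non-zero degree. -/
def HasCurve (C : ChowTheory.{u, v} 𝒱) : Prop :=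
  ∃ (E : 𝒱.Obj) (e : C.CH E), E.dim = 1 ∧ InCH C E 1 e ∧ C.deg E e ≠ 0

/-- Homologically trivial classes of middle weight and of codimension at most half the dimension
vanish: if `2m ≤ dim X` and `δ` is a degree operator of `X`, then there is no non-zero
homologically trivial class `x` in `CH^m(X)` with `δ_* x = dim(X) x`. -/
def MiddleWeight (W : WeilTheory.{u, v, w} C) : Prop :=
  ∀ (X : 𝒱.Obj) (δ : C.CH (X.prod X)), IsDegOp W X δ → ∀ m : ℕ, 2 * m ≤ X.dim →
    ∀ x, HomTrivial W X m x → corrAct C δ x = (X.dim : ℚ) • x → x = 0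

/-- Homologically trivial classes of middle codimension and of weight at least the dimension
vanish: if `2m = dim X ≤ c` and `δ` is a degree operator of `X`, then there is no non-zero
homologically trivial class `x` in `CH^m(X)` with `δ_* x = c x`. -/
def MiddleCodim (W : WeilTheory.{u, v, w} C) : Prop :=
  ∀ (X : 𝒱.Obj) (δ : C.CH (X.prod X)), IsDegOp W X δ → ∀ m c : ℕ, 2 * m = X.dim → X.dim ≤ c →
    ∀ x, HomTrivial W X m x → corrAct C δ x = (c : ℚ) • x → x = 0

/-- All varieties have Chow–Künneth decompositions `π`, and for each of them `π_(dim X)` acts as zero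
on the homologically trivial classes in `CH^m(X)` if `2m ≤ dim X`: for the Chow motive
`h^d(X)`, where `d = dim X`, one has `CH^m(h^d(X))_hom = 0` for `m ≤ d / 2`. -/
def MiddleCK (W : WeilTheory.{u, v, w} C) : Prop :=
  ∀ X : 𝒱.Obj, W.HasCK X ∧ ∀ π : ℕ → C.CH (X.prod X), W.IsCK X π → ∀ m : ℕ, 2 * m ≤ X.dim →
    ∀ x, HomTrivial W X m x → corrAct C (π X.dim) x = 0

/-- For `b < d = dim X` there are correspondences `μ` in `CH^(2d-b)(X × X)` and `λ` in
`CH^b(X × X)` such that `λ_* μ_*` is the identity on `H^b(X)`. The standard conjecture of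
Lefschetz type for `X` says that this is true with `μ_*` the cup product with the `(d-b)`-th power
of the class of an ample divisor. -/
def LefschetzStd (W : WeilTheory.{u, v, w} C) (X : 𝒱.Obj) : Prop :=
  ∀ b : ℕ, b < X.dim → ∃ μ lam : C.CH (X.prod X), InCH C (X.prod X) (2 * X.dim - b) μ ∧
    InCH C (X.prod X) b lam ∧ LeftInvOn (W.gr X b) (W.act lam) (W.act μ)

end Pool.Agent.T6.H15.BB
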