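import Pool.Agent.R903.Murre
import Pool.Agent.T6.H15.BB.Defs

/-!
# Polynomials in a degree operator
-/

open CategoryTheory CategoryTheory.Limits AlgebraicGeometry Polynomial
open Pool.Agent.H914 Pool.Agent.H914.VarClass Pool.Agent.H914.VarClass.Obj Pool.Agent.R903

universe u v w

namespace Pool.Agent.T6.H15.BB

variable {k : Type u} [Field k] {𝒱 : VarClass k} {C : ChowTheory.{u, v} 𝒱}

/-- A correspondence which acts as zero on cohomology is homologically trivial. -/
lemma cl_eq_zero (W : WeilTheory.{u, v, w} C) {X Y : 𝒱.Obj} {γ : C.CH (X.prod Y)}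
    (h : ∀ j, Kills W γ j) : W.cl _ γ = 0 := by
  have h0 : ∀ a, W.act γ a = 0 := by
    intro a
    refine gr_induction (W.isInternal X) (p := fun a => W.act γ a = 0) ?_ ?_ a
    · intro j a ha; exact h j a ha
    · intro a b ha hb; rw [map_add, ha, hb, add_zero]
  apply W.nondeg
  intro c
  refine W.kunneth_induction (p := fun c => W.tr _ (W.cl _ γ * c) = 0) ?_ ?_ c
  · intro a b ha hb; rw [mul_add, map_add, ha, hb, add_zero]
  · intro i j a _ b _
    rw [← mul_assoc, ← W.tr_push]
    have := h0 a
    rw [W.act_apply] at this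
    rw [this, zero_mul, map_zero]

section Poly

variable (C) {X : 𝒱.Obj}

/-- The polynomial `p` in the correspondence `d`. -/
noncomputable def polyC (d : C.CH (X.prod X)) (p : ℚ[X]) : C.CH (X.prod X) :=
  (CorrRing.of C X).symm (aeval (CorrRing.of C X d) p)

variable {C}

lemma polyC_mul (d : C.CH (X.prod X)) (p q : ℚ[X]) :
    polyC C d (p * q) = C.comp (polyC C d q) (polyC C d p) := by
  rw [polyC, map_mul]; rfl

lemma polyC_mul' (d : C.CH (X.prod X)) (p q : ℚ[X]) :
    polyC C d (p * q) = C.comp (polyC C d p) (polyC C d q) := by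
  rw [mul_comm, polyC_mul]

lemma polyC_add (d : C.CH (X.prod X)) (p q : ℚ[X]) :
    polyC C d (p + q) = polyC C d p + polyC C d q := by
  rw [polyC, map_add]; rfl

lemma polyC_sub (d : C.CH (X.prod X)) (p q : ℚ[X]) :
    polyC C d (p - q) = polyC C d p - polyC C d q := by
  rw [polyC, map_sub]; rfl

lemma polyC_zero (d : C.CH (X.prod X)) : polyC C d 0 = 0 := by
  rw [polyC, map_zero]; rfl

lemma polyC_one (d : C.CH (X.prod X)) : polyC C d 1 = C.diagC X := by
  rw [polyC, map_one]; rfl

lemma polyC_X (d : C.CH (X.prod X)) : polyC C d Polynomial.X = d := by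
  rw [polyC, aeval_X]; rfl

lemma polyC_C (d : C.CH (X.prod X)) (q : ℚ) : polyC C d (Polynomial.C q) = q • C.diagC X := by
  rw [polyC, aeval_C, Algebra.algebraMap_eq_smul_one, map_smul]; rfl

lemma polyC_sum {ι : Type*} (s : Finset ι) (d : C.CH (X.prod X)) (p : ι → ℚ[X]) :
    polyC C d (∑ i ∈ s, p i) = ∑ i ∈ s, polyC C d (p i) := by
  rw [polyC, map_sum, map_sum]; rfl

lemma polyC_smul (d : C.CH (X.prod X)) (q : ℚ) (p : ℚ[X]) :
    polyC C d (q • p) = q • polyC C d p := by
  rw [polyC, map_smul, map_smul]; rfl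

lemma polyC_mem {d : C.CH (X.prod X)} (hd : d ∈ C.gr (X.prod X) X.dim) (p : ℚ[X]) :
    polyC C d p ∈ C.gr (X.prod X) X.dim := by
  induction p using Polynomial.induction_on' with
  | add p q hp hq => rw [polyC_add]; exact Submodule.add_mem _ hp hq
  | monomial n a =>
    rw [← mul_one a, ← smul_eq_mul, ← Polynomial.smul_monomial, polyC_smul,
      Polynomial.monomial_one_right_eq_X_pow]
    refine Submodule.smul_mem _ _ ?_
    induction n with
    | zero => rw [pow_zero, polyC_one]; exact C.diagC_mem X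
    | succ n ih =>
      rw [pow_succ, polyC_mul, polyC_X]
      exact C.comp_mem hd ih rfl

/-- The action of a polynomial on Chow groups. -/
lemma act_polyC (d : C.CH (X.prod X)) (p : ℚ[X]) :
    C.act (polyC C d p) = aeval (C.act d) p := by
  have h := Polynomial.aeval_algHom_apply (CorrRing.actH C X) (CorrRing.of C X d) p
  rw [CorrRing.actH_of] at h
  exact h.symm

/-- An eigenvector. -/
lemma act_polyC_eigen {d : C.CH (X.prod X)} {x : C.CH X} {c : ℚ} (h : C.act d x = c • x)
    (p : ℚ[X]) : C.act (polyC C d p) x = p.eval c • x := by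
  rw [act_polyC]
  induction p using Polynomial.induction_on' with
  | add p q hp hq => rw [map_add, LinearMap.add_apply, hp, hq, eval_add, add_smul]
  | monomial n a =>
    rw [aeval_monomial, eval_monomial, Module.End.mul_apply, Module.algebraMap_end_apply]
    have : ((C.act d) ^ n) x = c ^ n • x := by
      induction n with
      | zero => simp
      | succ n ih => rw [pow_succ', Module.End.mul_apply, ih, map_smul, h, smul_smul, pow_succ]
    rw [this, smul_smul]

/-- The action of a polynomial in a degree operator on cohomology. -/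
lemma actH_polyC {W : WeilTheory.{u, v, w} C} {d : C.CH (X.prod X)} (hd : W.IsDegree X d)
    (p : ℚ[X]) {j : ℕ} {a : W.H X} (ha : a ∈ W.gr X j) :
    W.act (polyC C d p) a = ((p.eval (j : ℚ) : ℚ) : W.K) • a := by
  induction p using Polynomial.induction_on' with
  | add p q hp hq =>
    rw [polyC_add, W.act_add, LinearMap.add_apply, hp, hq, eval_add, Rat.cast_add, add_smul]
  | monomial n b =>
    have : W.act (polyC C d (Polynomial.X ^ n)) a = ((j : ℚ) ^ n : W.K) • a := by
      induction n with
      | zero => rw [pow_zero, polyC_one, W.act_diagC, pow_zero, one_smul]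
      | succ n ih =>
        rw [pow_succ', polyC_mul, polyC_X, W.act_comp _ hd.1, ih, map_smul, hd.2 j a ha,
          smul_smul, pow_succ]
        push_cast
        rfl
    rw [← mul_one b, ← smul_eq_mul, ← Polynomial.smul_monomial, polyC_smul,
      Polynomial.monomial_one_right_eq_X_pow, W.act_smul, LinearMap.smul_apply, this, smul_smul,
      Polynomial.eval_smul, eval_pow, eval_X, smul_eq_mul]
    push_cast
    rfl

end Poly

section Nodes

/-- the polynomial `∏ (T - l)`, `l ∈ s` -/
noncomputable def nodes (s : Finset ℕ) : ℚ[X] := ∏ l ∈ s, (Polynomial.X - Polynomial.C (l : ℚ))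

lemma eval_nodes (s : Finset ℕ) (c : ℚ) : (nodes s).eval c = ∏ l ∈ s, (c - (l : ℚ)) := by
  rw [nodes, eval_prod]
  refine Finset.prod_congr rfl fun l _ => by simp

lemma eval_nodes_eq_zero {s : Finset ℕ} {j : ℕ} (hj : j ∈ s) : (nodes s).eval (j : ℚ) = 0 := by
  rw [eval_nodes]
  exact Finset.prod_eq_zero hj (sub_self _)

lemma eval_nodes_ne_zero {s : Finset ℕ} {j : ℕ} (hj : j ∉ s) : (nodes s).eval (j : ℚ) ≠ 0 := by
  rw [eval_nodes, Finset.prod_ne_zero_iff]
  intro l hl
  rw [sub_ne_zero]
  intro h
  rw [Nat.cast_inj] at h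
  exact hj (h ▸ hl)

lemma nodes_dvd {s : Finset ℕ} {p : ℚ[X]} (h : ∀ l ∈ s, p.eval (l : ℚ) = 0) : nodes s ∣ p := by
  refine Finset.prod_dvd_of_coprime ?_ fun l hl => dvd_iff_isRoot.2 (h l hl)
  intro a _ b _ hab
  exact Polynomial.isCoprime_X_sub_C_of_isUnit_sub
    (IsUnit.mk0 _ (sub_ne_zero.2 fun h => hab (Nat.cast_injective h)))

end Nodes

/-- If `∏ (d - l) = 0`, `l ∈ s`, then polynomials in `d` are determined by their values on `s`. -/
lemma polyC_congr {X : 𝒱.Obj} {d : C.CH (X.prod X)} {s : Finset ℕ}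
    (h : polyC C d (nodes s) = 0) {p q : ℚ[X]}
    (hpq : ∀ l ∈ s, p.eval (l : ℚ) = q.eval (l : ℚ)) : polyC C d p = polyC C d q := by
  rw [← sub_eq_zero, ← polyC_sub]
  obtain ⟨r, hr⟩ := nodes_dvd (s := s) (p := p - q) fun l hl => by
    rw [eval_sub, hpq l hl, sub_self]
  rw [hr, polyC_mul, h, C.comp_zero]

/-- The Lagrange polynomial. -/
noncomputable def lag (s : Finset ℕ) (j : ℕ) : ℚ[X] := Lagrange.basis s (fun n : ℕ => (n : ℚ)) j

lemma eval_lag {s : Finset ℕ} {j l : ℕ} (hl : l ∈ s) :
    (lag s j).eval (l : ℚ) = if l = j then 1 else 0 := by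
  split_ifs with h
  · subst h
    exact Lagrange.eval_basis_self (Nat.cast_injective.injOn) hl
  · exact Lagrange.eval_basis_of_ne (Ne.symm h) hl

/-- A degree operator which is annihilated by `∏ (T - l)`, `l ≤ 2 dim(X)`, has
eigenprojectors which form a Chow–Künneth decomposition. -/
lemma isCK_of_poly {W : WeilTheory.{u, v, w} C} {X : 𝒱.Obj} {d : C.CH (X.prod X)}
    (hd : W.IsDegree X d) (h : polyC C d (nodes (Finset.range (2 * X.dim + 1))) = 0) :
    W.IsCK X (fun j => polyC C d (lag (Finset.range (2 * X.dim + 1)) j)) where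
  mem j := polyC_mem hd.1 _
  idem j := by
    rw [← polyC_mul]
    refine polyC_congr h fun l hl => ?_
    rw [eval_mul, eval_lag hl]
    split_ifs <;> simp
  orth i j hij := by
    rw [← polyC_mul', ← polyC_zero (C := C) (X := X) d]
    refine polyC_congr h fun l hl => ?_
    rw [eval_mul, eval_lag hl, eval_lag hl]
    split_ifs with h1 h2
    · exact absurd (h1.symm.trans h2) hij
    · simp
    · simp
    · simp
  sum := by
    rw [← polyC_sum, ← polyC_one d]
    refine polyC_congr h fun l hl => ?_
    rw [eval_finsetSum, eval_one]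
    rw [Finset.sum_congr rfl fun j _ => eval_lag (j := j) hl]
    rw [Finset.sum_ite_eq, if_pos hl]
  proj j := by
    intro l a ha
    rw [actH_polyC hd _ ha]
    by_cases hl : l ∈ Finset.range (2 * X.dim + 1)
    · rw [eval_lag hl]
      split_ifs <;> simp
    · rw [Finset.mem_range, not_lt] at hl
      rw [W.gr_eq_bot X l (by omega), Submodule.mem_bot] at ha
      rw [ha]
      simp

/-- A degree operator exists if the Künneth components of the diagonal are algebraic. -/
lemma exists_isDegree {W : WeilTheory.{u, v, w} C} {X : 𝒱.Obj}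
    (h : ∀ j, ∃ π ∈ C.gr (X.prod X) X.dim, IsProjector (W.gr X) j (W.act π)) :
    ∃ d, W.IsDegree X d := by
  choose π hπ hp using h
  refine ⟨∑ j ∈ Finset.range (2 * X.dim + 1), (j : ℚ) • π j, ?_, ?_⟩
  · exact Submodule.sum_mem _ fun j _ => Submodule.smul_mem _ _ (hπ j)
  · intro l a ha
    rw [W.act_sum, LinearMap.sum_apply]
    by_cases hl : l ∈ Finset.range (2 * X.dim + 1)
    · rw [Finset.sum_eq_single l]
      · rw [W.act_smul, LinearMap.smul_apply, hp l l a ha, if_pos rfl]
        push_cast
        rfl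
      · intro j _ hj
        rw [W.act_smul, LinearMap.smul_apply, hp j l a ha, if_neg (Ne.symm hj), smul_zero]
      · intro h; exact absurd hl h
    · rw [Finset.mem_range, not_lt] at hl
      rw [W.gr_eq_bot X l (by omega), Submodule.mem_bot] at ha
      rw [ha]
      simp

/-- The degree operator of a Chow–Künneth decomposition. -/
noncomputable def degCK (C : ChowTheory.{u, v} 𝒱) {X : 𝒱.Obj} (π : ℕ → C.CH (X.prod X)) :
    C.CH (X.prod X) := ∑ j ∈ Finset.range (2 * X.dim + 1), (j : ℚ) • π j

lemma isDegree_degCK {W : WeilTheory.{u, v, w} C} {X : 𝒱.Obj} {π : ℕ → C.CH (X.prod X)}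
    (h : W.IsCK X π) : W.IsDegree X (degCK C π) := by
  refine ⟨Submodule.sum_mem _ fun j _ => Submodule.smul_mem _ _ (h.mem j), ?_⟩
  intro l a ha
  rw [degCK, W.act_sum, LinearMap.sum_apply]
  by_cases hl : l ∈ Finset.range (2 * X.dim + 1)
  · rw [Finset.sum_eq_single l]
    · rw [W.act_smul, LinearMap.smul_apply, h.proj l l a ha, if_pos rfl]
      push_cast
      rfl
    · intro j _ hj
      rw [W.act_smul, LinearMap.smul_apply, h.proj j l a ha, if_neg (Ne.symm hj), smul_zero]
    · intro h; exact absurd hl h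
  · rw [Finset.mem_range, not_lt] at hl
    rw [W.gr_eq_bot X l (by omega), Submodule.mem_bot] at ha
    rw [ha]
    simp

lemma act_degCK {W : WeilTheory.{u, v, w} C} {X : 𝒱.Obj} {π : ℕ → C.CH (X.prod X)}
    (h : W.IsCK X π) (l : ℕ) (x : C.CH X) :
    C.act (degCK C π) (C.act (π l) x) = (l : ℚ) • C.act (π l) x := by
  rw [degCK, WeilTheory.act_sum_apply]
  by_cases hl : l ∈ Finset.range (2 * X.dim + 1)
  · rw [Finset.sum_eq_single l]
    · rw [C.act_smul, LinearMap.smul_apply, h.act_act, if_pos rfl]
    · intro j _ hj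
      rw [C.act_smul, LinearMap.smul_apply, h.act_act, if_neg hj, smul_zero]
    · intro h; exact absurd hl h
  · rw [Finset.mem_range, not_lt] at hl
    rw [h.eq_zero (by omega), C.act_zero]
    simp

end Pool.Agent.T6.H15.BB
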