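import Pool.Agent.T6.H15.BB.Main
import Pool.Agent.T6.H15.BB.MidDefs

/-!
# Products with a curve
-/

open CategoryTheory CategoryTheory.Limits AlgebraicGeometry Polynomial
open Pool.Agent.H914 Pool.Agent.H914.VarClass Pool.Agent.H914.VarClass.Obj Pool.Agent.R903
open Pool.Agent.R903.WeilTheory

universe u v w

namespace Pool.Agent.T6.H15.BB

variable {k : Type u} [Field k] {𝒱 : VarClass k} {C : ChowTheory.{u, v} 𝒱}
  {W : WeilTheory.{u, v, w} C} {X Y E : 𝒱.Obj}

lemma act_ext_H (u : C.CH X) {v : C.CH Y} {q : ℕ} (hv : v ∈ C.gr Y q) (a : W.H X) :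
    W.act (C.ext u v) a = W.tr X (W.cl X u * a) • W.cl Y v := by
  rw [W.act_apply, ChowTheory.ext, W.cl_mul, W.cl_pull, W.cl_pull, mul_assoc,
    W.even_comm (W.map_mem _ (W.cl_mem hv)), ← mul_assoc, ← W.map_mul', W.push_snd]

lemma deg_eq_zero (W : WeilTheory.{u, v, w} C) {p : ℕ} {x : C.CH X} (hx : x ∈ C.gr X p)
    (hp : p ≠ X.dim) : C.deg X x = 0 := by
  have h1 : (C.deg X x : W.K) = 0 := by
    rw [← W.tr_cl]
    exact W.tr_eq_zero (W.cl_mem hx) (by omega)
  exact_mod_cast h1

lemma mem_gr_zero {a : W.H X} (ha : a ∈ W.gr X 0) : ∃ c : W.K, a = c • (1 : W.H X) := by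
  rw [(W.isPoincareAlgebra X).gr_zero, Submodule.mem_span_singleton] at ha
  obtain ⟨c, rfl⟩ := ha
  exact ⟨c, rfl⟩

lemma eq_zero_of_tr {a : W.H X} (ha : a ∈ W.gr X (2 * X.dim)) (h : W.tr X a = 0) : a = 0 := by
  apply W.nondeg
  intro b
  refine gr_induction (W.isInternal X) (p := fun b => W.tr X (a * b) = 0) ?_ ?_ b
  · intro i b hb
    by_cases hi : i = 0
    · subst hi
      obtain ⟨c, rfl⟩ := mem_gr_zero hb
      rw [mul_smul_comm, mul_one, map_smul, h, smul_zero]
    · exact W.tr_eq_zero (W.mul_mem ha hb) (by omega)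
  · intro b b' hb hb'
    rw [mul_add, map_add, hb, hb', add_zero]

lemma push_fst_pull_snd (X Y : 𝒱.Obj) (y : C.CH Y) :
    C.push (fst X Y) (C.pull (snd X Y) y) = algebraMap ℚ (C.CH X) (C.deg Y y) := by
  have e1 : fst X Y = swap X Y ≫ snd Y X := by simp
  have e2 : snd X Y = swap X Y ≫ fst Y X := by simp
  rw [e1, C.push_comp, e2, C.pull_comp, C.push_pull_iso, C.push_snd_pull_fst]

/-- the degree operator of a curve -/
noncomputable def curveDeg (C : ChowTheory.{u, v} 𝒱) {E : 𝒱.Obj} (e : C.CH E) :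
    C.CH (E.prod E) := C.diagC E - C.ext e 1 + C.ext 1 e

lemma isDegree_curveDeg (hE : E.dim = 1) {e : C.CH E} (he : e ∈ C.gr E 1) (hd : C.deg E e = 1) :
    W.IsDegree E (curveDeg C e) := by
  refine ⟨?_, fun l a ha => ?_⟩
  · refine Submodule.add_mem _ (Submodule.sub_mem _ (C.diagC_mem E) ?_) ?_
    · have := C.ext_mem he (C.one_mem E); rwa [hE]
    · have := C.ext_mem (C.one_mem E) he; rwa [hE]
  · rw [curveDeg, W.act_add, W.act_sub, LinearMap.add_apply, LinearMap.sub_apply, W.act_diagC,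
      act_ext_H e (C.one_mem E), act_ext_H 1 he, map_one]
    have h1a : (1 : W.H E) * a = a := one_mul a
    rw [h1a]
    have hee : W.tr E (W.cl E e) = 1 := by rw [W.tr_cl, hd, Rat.cast_one]
    rcases Nat.lt_or_ge 2 l with h | h
    · rw [W.gr_eq_bot E l (by omega), Submodule.mem_bot] at ha
      rw [ha]; simp
    interval_cases l
    · obtain ⟨c, rfl⟩ := mem_gr_zero ha
      have h0 : W.tr E (c • (1 : W.H E)) = 0 := W.tr_eq_zero ha (by omega)
      rw [h0, mul_smul_comm, mul_one, map_smul, hee]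
      simp
    · rw [W.tr_eq_zero (W.mul_mem (W.cl_mem he) ha) (by omega), W.tr_eq_zero ha (by omega)]
      simp
    · have h1 : W.tr E a • W.cl E e = a := by
        rw [← sub_eq_zero]
        apply eq_zero_of_tr
        · rw [hE]
          exact Submodule.sub_mem _ (Submodule.smul_mem _ _ (W.cl_mem he)) ha
        · rw [map_sub, map_smul, hee, smul_eq_mul, mul_one, sub_self]
      rw [W.tr_eq_zero (W.mul_mem (W.cl_mem he) ha) (by omega), h1]
      push_cast
      module

lemma act_curveDeg_one (W : WeilTheory.{u, v, w} C) (hE : E.dim = 1) {e : C.CH E}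
    (hd : C.deg E e = 1) : C.act (curveDeg C e) 1 = 0 := by
  rw [curveDeg, C.act_add, C.act_sub, LinearMap.add_apply, LinearMap.sub_apply, C.act_diagC,
    C.act_ext, C.act_ext, one_mul, one_mul, hd, deg_eq_zero W (C.one_mem E) (by omega)]
  simp

lemma act_curveDeg_self (W : WeilTheory.{u, v, w} C) (hE : E.dim = 1) {e : C.CH E}
    (he : e ∈ C.gr E 1) (hd : C.deg E e = 1) :
    C.act (curveDeg C e) e = (2 : ℚ) • e := by
  have h2 : e * e = 0 := by
    have := C.mul_mem he he
    rwa [C.gr_eq_bot E _ (by omega), Submodule.mem_bot] at this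
  rw [curveDeg, C.act_add, C.act_sub, LinearMap.add_apply, LinearMap.sub_apply, C.act_diagC,
    C.act_ext, C.act_ext, mul_one, hd, h2, map_zero]
  module

lemma act_degExt_ext (d : C.CH (X.prod X)) (e : C.CH (Y.prod Y)) (x : C.CH X) (y : C.CH Y) :
    C.act (WeilTheory.degExt C d e) (C.ext x y) = C.ext (C.act d x) y + C.ext x (C.act e y) := by
  rw [WeilTheory.degExt, C.act_add, LinearMap.add_apply, C.act_opM_ext, C.act_opL_ext]

lemma ext_smul_left (q : ℚ) (x : C.CH X) (y : C.CH Y) : C.ext (q • x) y = q • C.ext x y := by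
  rw [ChowTheory.ext, map_smul, smul_mul_assoc, ChowTheory.ext]

lemma ext_smul_right (q : ℚ) (x : C.CH X) (y : C.CH Y) : C.ext x (q • y) = q • C.ext x y := by
  rw [ChowTheory.ext, map_smul, mul_smul_comm, ChowTheory.ext]

lemma push_fst_ext (x : C.CH X) (y : C.CH Y) :
    C.push (fst X Y) (C.ext x y) = C.deg Y y • x := by
  rw [ChowTheory.ext, C.mul_push, push_fst_pull_snd, mul_comm, Algebra.smul_def]

lemma ext_inj {x : C.CH X} {y : C.CH Y} (z : C.CH Y) (hy : C.deg Y (y * z) ≠ 0)
    (h : C.ext x y = 0) : x = 0 := by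
  have h1 : C.push (fst X Y) (C.ext x (y * z)) = 0 := by
    have : C.ext x (y * z) = C.ext x y * C.pull (snd X Y) z := by
      rw [ChowTheory.ext, ChowTheory.ext, C.pull_mul, mul_assoc]
    rw [this, h, zero_mul, map_zero]
  rw [push_fst_ext] at h1
  exact (smul_eq_zero.1 h1).resolve_left hy

lemma HomTrivial.ext {i j : ℕ} {x : C.CH X} (hx : HomTrivial W X i x) {y : C.CH Y}
    (hy : y ∈ C.gr Y j) : HomTrivial W (X.prod Y) (i + j) (C.ext x y) :=
  homTrivial_mk (C.ext_mem hx.1 hy) (by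
    rw [ChowTheory.ext, W.cl_mul, W.cl_pull, hx.cl, map_zero, zero_mul])

/-- The upper half of the bound for the eigenvalues: the eigenvalues of degree operators on
homologically trivial classes in `CH^i` are less than `2i`. -/
def EigUp (W : WeilTheory.{u, v, w} C) : Prop :=
  ∀ X, ∀ δ, W.IsDegree X δ → ∀ i c : ℕ, 2 * i ≤ c → ∀ x, HomTrivial W X i x →
    C.act δ x = (c : ℚ) • x → x = 0

/-- The twisting argument. -/
theorem eigUp_of (hC : HasCurve C) (T : ∀ X : 𝒱.Obj, ℕ → ℕ → ℕ)
    (h0 : ∀ X, ∀ δ, W.IsDegree X δ → ∀ i c : ℕ, 2 * i ≤ c → T X i c = 0 →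
      ∀ x, HomTrivial W X i x → C.act δ x = (c : ℚ) • x → x = 0)
    (h1 : ∀ X E : 𝒱.Obj, E.dim = 1 → ∀ i c n : ℕ, T X i c = n + 1 →
      T (X.prod E) i c = n ∨ T (X.prod E) (i + 1) (c + 2) = n) : EigUp W := by
  obtain ⟨E, e0, hE, he0, hd0⟩ := hC
  obtain ⟨e, he, hd⟩ : ∃ e ∈ C.gr E 1, C.deg E e = 1 :=
    ⟨(C.deg E e0)⁻¹ • e0, Submodule.smul_mem _ _ he0, by
      rw [map_smul, smul_eq_mul, inv_mul_cancel₀ hd0]⟩
  have key : ∀ n : ℕ, ∀ X, ∀ δ, W.IsDegree X δ → ∀ i c : ℕ, 2 * i ≤ c → T X i c = n →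
      ∀ x, HomTrivial W X i x → C.act δ x = (c : ℚ) • x → x = 0 := by
    intro n
    induction n with
    | zero => exact h0
    | succ n ih =>
      intro X δ hδ i c hic hT x hx hcx
      have hδ' := W.isDegree_degExt hδ (isDegree_curveDeg hE he hd)
      rcases h1 X E hE i c n hT with hT' | hT'
      · refine ext_inj (y := (1 : C.CH E)) e (by rw [one_mul, hd]; exact one_ne_zero)
          (ih (X.prod E) _ hδ' i c hic hT' _ (hx.ext (C.one_mem E)) ?_)
        rw [act_degExt_ext, hcx, act_curveDeg_one W hE hd, ext_zero_right, add_zero,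
          ext_smul_left]
      · refine ext_inj (y := e) 1 (by rw [mul_one, hd]; exact one_ne_zero)
          (ih (X.prod E) _ hδ' (i + 1) (c + 2) (by omega) hT' _ (hx.ext he) ?_)
        rw [act_degExt_ext, hcx, act_curveDeg_self W hE he hd, ext_smul_left, ext_smul_right,
          ← add_smul]
        push_cast
        rfl
  exact fun X δ hδ i c hic x hx hcx => key _ X δ hδ i c hic rfl x hx hcx

/-- It suffices to consider the weight `c = dim X`. -/
theorem MiddleWeight.eigUp (hC : HasCurve C) (h : MiddleWeight W) : EigUp W := by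
  refine eigUp_of hC (fun X _ c => max (c - X.dim) (X.dim - c)) ?_ ?_
  · intro X δ hδ i c hic hT x hx hcx
    have hc : c = X.dim := by omega
    subst hc
    exact h X δ hδ i hic x hx hcx
  · intro X E hE i c n hT
    rw [dim_prod, hE]
    rcases Nat.lt_or_ge X.dim c with h | h
    · left; omega
    · right; omega

/-- It suffices to consider the codimension `i = dim X / 2`. -/
theorem MiddleCodim.eigUp (hC : HasCurve C) (h : MiddleCodim W) : EigUp W := by
  refine eigUp_of hC (fun X i _ => max (2 * i - X.dim) (X.dim - 2 * i)) ?_ ?_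
  · intro X δ hδ i c hic hT x hx hcx
    exact h X δ hδ i c (by omega) (by omega) x hx hcx
  · intro X E hE i c n hT
    rw [dim_prod, hE]
    rcases Nat.lt_or_ge X.dim (2 * i) with h | h
    · left; omega
    · right; omega

theorem EigUp.middleWeight (h : EigUp W) : MiddleWeight W :=
  fun X δ hδ m hm x hx hc => h X δ hδ m _ hm x hx hc

theorem EigUp.middleCodim (h : EigUp W) : MiddleCodim W :=
  fun X δ hδ m c hm hc x hx hcx => h X δ hδ m c (by omega) x hx hcx

end Pool.Agent.T6.H15.BB
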