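import Pool.Agent.T6.H15.BB.Twist

/-!
# The upper half of the bound for the eigenvalues
-/

open CategoryTheory CategoryTheory.Limits AlgebraicGeometry Polynomial
open Pool.Agent.H914 Pool.Agent.H914.VarClass Pool.Agent.H914.VarClass.Obj Pool.Agent.R903
open Pool.Agent.R903.WeilTheory

universe u v w

namespace Pool.Agent.T6.H15.BB

variable {k : Type u} [Field k] {𝒱 : VarClass k} {C : ChowTheory.{u, v} 𝒱}
  {W : WeilTheory.{u, v, w} C} {X Y E : 𝒱.Obj}

/-- Chow–Künneth decompositions exist, and `π b` kills the homologically trivial classes in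
`CH^i` if `2i ≤ b`. -/
structure UpGood (W : WeilTheory.{u, v, w} C) : Prop where
  ck : ∀ X, W.HasCK X
  van : ∀ X π, W.IsCK X π → ∀ i b : ℕ, 2 * i ≤ b → ∀ x, HomTrivial W X i x → C.act (π b) x = 0

theorem EigUp.good (hK : W.Kunneth) (hE : EigUp W) : UpGood W where
  ck X := by
    obtain ⟨δ, hδ⟩ := exists_isDegree (hK X)
    have h0 : HomTrivial W (X.prod X) X.dim
        (polyC C δ (nodes (Finset.range (2 * X.dim + 1)))) := by
      refine ⟨polyC_mem hδ.1 _, cl_eq_zero W fun j a ha => ?_⟩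
      rw [actH_polyC hδ _ ha]
      by_cases hj : j ∈ Finset.range (2 * X.dim + 1)
      · rw [eval_nodes_eq_zero hj]; simp
      · rw [Finset.mem_range, not_lt] at hj
        rw [W.gr_eq_bot X j (by omega), Submodule.mem_bot] at ha
        rw [ha, smul_zero]
    have h1 : C.act (WeilTheory.degHom C δ δ)
        (polyC C δ (nodes (Finset.range (2 * X.dim + 1)))) =
        ((2 * X.dim : ℕ) : ℚ) • polyC C δ (nodes (Finset.range (2 * X.dim + 1))) := by
      set p := nodes (Finset.range (2 * X.dim + 1))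
      have h2 : C.comp δ (polyC C δ p) = C.comp (polyC C δ p) δ := by
        have e1 : C.comp (polyC C δ Polynomial.X) (polyC C δ p) =
          C.comp (polyC C δ p) (polyC C δ Polynomial.X) := by
          rw [← polyC_mul, ← polyC_mul']
        rwa [polyC_X] at e1
      rw [WeilTheory.degHom, C.act_add, C.act_sub, C.act_smul, LinearMap.add_apply,
        LinearMap.sub_apply, LinearMap.smul_apply, C.act_diagC, C.act_opR, C.act_opL, h2,
        sub_add_cancel]
      push_cast
      rfl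
    have h2 := hE _ _ (W.isDegree_degHom hδ hδ) X.dim (2 * X.dim) le_rfl _ h0 h1
    exact ⟨_, isCK_of_poly hδ h2⟩
  van X π hπ i b hb x hx := by
    refine hE X _ (isDegree_degCK hπ) i b hb _ (hx.act (hπ.mem b) rfl) ?_
    exact act_degCK hπ b x

/-- classes of the wrong weight vanish -/
lemma UpGood.van' (hG : UpGood W) {X : 𝒱.Obj} {π : ℕ → C.CH (X.prod X)}
    (hπ : W.IsCK X π) {i b : ℕ} (hb : 2 * i < b) {x : C.CH X} (hx : x ∈ C.gr X i) :
    C.act (π b) x = 0 := by
  have h1 : HomTrivial W X i (C.act (π b) x) := by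
    refine homTrivial_mk (C.act_mem (hπ.mem b) hx rfl) ?_
    rw [W.cl_act, hπ.proj b _ _ (W.cl_mem hx), if_neg (by omega)]
  have h2 := hG.van X π hπ i b hb.le _ h1
  rwa [hπ.act_act, if_pos rfl] at h2

lemma UpGood.block (hG : UpGood W) {X Y : 𝒱.Obj}
    {π : ℕ → C.CH (X.prod X)} {ρ : ℕ → C.CH (Y.prod Y)} (h : W.IsCK X π)
    (h' : W.IsCK Y ρ) {a b c : ℕ} (ha : a ≤ 2 * X.dim) {γ : C.CH (X.prod Y)}
    (hγ : γ ∈ C.gr (X.prod Y) c)
    (hc : 2 * c + a < 2 * X.dim + b ∨ (2 * c + a = 2 * X.dim + b ∧ Kills W γ a)) :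
    C.comp (C.comp (π a) γ) (ρ b) = 0 := by
  have hCK := h.transp.prod h'
  have hmem : C.comp (C.comp (π a) γ) (ρ b) ∈ C.gr (X.prod Y) c :=
    C.comp_mem (C.comp_mem (h.mem a) hγ (add_comm _ _)) (h'.mem b) rfl
  rcases hc with hc | ⟨hc, h0⟩
  · have h1 := hG.van' hCK (i := c) (b := 2 * X.dim - a + b) (by omega) hmem
    rwa [act_prodCK_block' h h' ha] at h1
  · have hcl : W.cl _ (C.comp (C.comp (π a) γ) (ρ b)) = 0 := by
      refine cl_eq_zero W fun j v hv => ?_
      rw [W.act_comp _ (h'.mem b), W.act_comp _ hγ, h.proj a j v hv]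
      split_ifs with hj
      · subst hj
        rw [h0 v hv, map_zero]
      · rw [map_zero, map_zero]
    have h1 := hG.van _ _ hCK c (2 * X.dim - a + b) (by omega) _ ⟨hmem, hcl⟩
    rwa [act_prodCK_block' h h' ha] at h1

lemma UpGood.act_mem (hG : UpGood W) {X Y : 𝒱.Obj}
    {π : ℕ → C.CH (X.prod X)} {ρ : ℕ → C.CH (Y.prod Y)} (h : W.IsCK X π)
    (h' : W.IsCK Y ρ) {i j c m : ℕ} {γ : C.CH (X.prod Y)} (hγ : γ ∈ C.gr (X.prod Y) c)
    (hc : i + c = j + X.dim) {x : C.CH X} (hx : x ∈ C.ckFil π i m) :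
    C.act γ x ∈ C.ckFil ρ j m ∧
      ((∀ l, l + m = 2 * i → Kills W γ l) → C.act γ x ∈ C.ckFil ρ j (m + 1)) := by
  rw [mem_ckFil h] at hx
  have key : ∀ b, C.act (ρ b) (C.act γ x) =
      ∑ a ∈ Finset.range (2 * X.dim + 1), C.act (C.comp (C.comp (π a) γ) (ρ b)) x := by
    intro b
    conv_lhs => rw [← h.sum_act x]
    rw [map_sum, map_sum]
    refine Finset.sum_congr rfl fun a _ => ?_
    rw [C.act_comp, C.act_comp]
  constructor
  · rw [mem_ckFil h']
    refine ⟨C.act_mem hγ hx.1 hc, fun b hb => ?_⟩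
    rw [key]
    refine Finset.sum_eq_zero fun a ha => ?_
    rw [Finset.mem_range] at ha
    by_cases ham : 2 * i < a + m
    · rw [C.act_comp, C.act_comp, hx.2 a ham, map_zero, map_zero]
    · rw [hG.block h h' (by omega) hγ (Or.inl (by omega)), C.act_zero,
        LinearMap.zero_apply]
  · intro h0
    rw [mem_ckFil h']
    refine ⟨C.act_mem hγ hx.1 hc, fun b hb => ?_⟩
    rw [key]
    refine Finset.sum_eq_zero fun a ha => ?_
    rw [Finset.mem_range] at ha
    by_cases ham : 2 * i < a + m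
    · rw [C.act_comp, C.act_comp, hx.2 a ham, map_zero, map_zero]
    · by_cases hab : 2 * c + a < 2 * X.dim + b
      · rw [hG.block h h' (by omega) hγ (Or.inl hab), C.act_zero, LinearMap.zero_apply]
      · rw [hG.block h h' (by omega) hγ (Or.inr ⟨by omega, h0 a (by omega)⟩),
          C.act_zero, LinearMap.zero_apply]

lemma UpGood.mul_mem (hG : UpGood W) {X : 𝒱.Obj}
    {π : ℕ → C.CH (X.prod X)} (h : W.IsCK X π) {i j m n : ℕ} {x y : C.CH X}
    (hx : x ∈ C.ckFil π i m) (hy : y ∈ C.ckFil π j n) :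
    x * y ∈ C.ckFil π (i + j) (m + n) := by
  rw [← C.pull_diag_ext, ← C.act_cograph]
  exact (hG.act_mem (h.prod h) h (C.cograph_mem (Obj.diag X)) rfl
    (ext_mem_ckFil h h hx hy)).1

lemma UpGood.ckFil_zero (hG : UpGood W) {π : ℕ → C.CH (X.prod X)}
    (h : W.IsCK X π) (i : ℕ) : C.ckFil π i 0 = C.gr X i := by
  rw [ckFil_zero_eq_iff h]
  intro b hb x hx
  exact hG.van' h hb hx

lemma UpGood.ckFil_one (hG : UpGood W) {π : ℕ → C.CH (X.prod X)}
    (h : W.IsCK X π) (i : ℕ) (x : C.CH X) : x ∈ C.ckFil π i 1 ↔ HomTrivial W X i x := by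
  rw [mem_ckFil h]
  constructor
  · rintro ⟨hx, h0⟩
    refine homTrivial_mk hx ?_
    have h1 := h.proj (2 * i) _ _ (W.cl_mem hx)
    rw [if_pos rfl] at h1
    rw [← h1, ← W.cl_act, h0 (2 * i) (by omega), map_zero]
  · intro hx
    exact ⟨hx.1, fun b hb => hG.van X π h i b (by omega) x hx⟩

/-- The filtration given by Chow–Künneth decompositions. -/
theorem UpGood.exists_isBBT (hG : UpGood W) :
    ∃ F : Family C, IsBBT (fun i => 2 * i + 1) W F := by
  choose π hπ using hG.ck
  refine ⟨fun X i n => C.ckFil (π X) i n, ⟨?_, ?_, ?_, ?_⟩, ⟨?_, ?_, ?_⟩, ?_⟩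
  · intro X i n x hx
    exact ckFil_anti (hπ X) (Nat.le_succ n) hx
  · intro X i x
    change x ∈ C.ckFil (π X) i 0 ↔ x ∈ C.gr X i
    rw [hG.ckFil_zero (hπ X)]
  · intro X i x
    exact hG.ckFil_one (hπ X) i x
  · intro X i x hx
    have h1 := ((mem_ckFil (hπ X)).1 hx).2
    rw [← (hπ X).sum_act x]
    exact Finset.sum_eq_zero fun b _ => h1 b (by omega)
  · intro X i j m n x y hx hy
    exact hG.mul_mem (hπ X) hx hy
  · intro X Y f i n y hy
    have := (hG.act_mem (hπ Y) (hπ X) (C.cograph_mem f) rfl hy).1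
    rwa [C.act_cograph] at this
  · intro X Y f i j n x hij hx
    have := (hG.act_mem (hπ X) (hπ Y) (C.graph_mem f) hij hx).1
    rwa [C.act_graph] at this
  · intro X i j n hjn γ hγ h0 x hx
    refine (hG.act_mem (hπ X) (hπ X) hγ rfl hx).2 fun l hl => ?_
    have : l = j := by omega
    rwa [this]

/-- Degree operators have eigenvalues less than `2i`, if there is a filtration. -/
theorem IsBBT.eigUp {F : Family C} (h : IsBBT (fun i => 2 * i + 1) W F) : EigUp W := by
  intro X δ hδ i c hic x hx hcx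
  have key : ∀ n, n ≤ 2 * i → InF F X i (n + 1) x := by
    intro n
    induction n with
    | zero => intro _; exact (h.fil.one X i x).2 hx
    | succ n ih =>
      intro hn
      have h1 := h.motivic X i (2 * i - (n + 1)) (n + 1) (by omega)
        (δ - ((2 * i - (n + 1) : ℕ) : ℚ) • C.diagC X)
        (Submodule.sub_mem _ hδ.1 (Submodule.smul_mem _ _ (C.diagC_mem X)))
        (kills_sub_smul hδ _) x (ih (by omega))
      have h2 : corrAct C (δ - ((2 * i - (n + 1) : ℕ) : ℚ) • C.diagC X) x =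
          ((c : ℚ) - ((2 * i - (n + 1) : ℕ) : ℚ)) • x := by
        change C.act _ x = _
        rw [C.act_sub, C.act_smul, LinearMap.sub_apply, LinearMap.smul_apply, C.act_diagC, hcx,
          sub_smul]
      rw [h2] at h1
      have h3 : ((c : ℚ) - ((2 * i - (n + 1) : ℕ) : ℚ)) ≠ 0 := by
        rw [sub_ne_zero]
        intro h4
        rw [Nat.cast_inj] at h4
        omega
      have h4 := Submodule.smul_mem (F X i (n + 1 + 1))
        ((c : ℚ) - ((2 * i - (n + 1) : ℕ) : ℚ))⁻¹ h1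
      rwa [smul_smul, inv_mul_cancel₀ h3, one_smul] at h4
  exact h.fil.top X i x (key (2 * i) le_rfl)

/-- The lower half of the bound follows from the Lefschetz conjecture. -/
theorem UpGood.goodOn (hG : UpGood W) (hL : ∀ X, LefschetzStd W X) :
    GoodOn W (fun _ => True) where
  ck X _ := hG.ck X
  van X _ π hπ i b hb x hx := by
    rcases hb with hb | hb
    swap
    · exact hG.van X π hπ i b hb x hx
    by_cases hi : X.dim < i
    · have hx0 : x ∈ C.gr X i := hx.1
      rw [C.gr_eq_bot X i hi, Submodule.mem_bot] at hx0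
      rw [hx0, map_zero]
    obtain ⟨μ, lam, hμ, hlam, hid⟩ := hL X b (by omega)
    have hμ' : μ ∈ C.gr (X.prod X) (2 * X.dim - b) := hμ
    have hlam' : lam ∈ C.gr (X.prod X) b := hlam
    have hmem : C.comp μ lam - C.diagC X ∈ C.gr (X.prod X) X.dim :=
      Submodule.sub_mem _ (C.comp_mem hμ' hlam' (by omega)) (C.diagC_mem X)
    have hkill : Kills W (C.comp μ lam - C.diagC X) b := by
      intro a ha
      rw [W.act_sub, LinearMap.sub_apply, W.act_comp _ hlam', W.act_diagC, sub_eq_zero]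
      exact hid a ha
    have h1 := hG.block hπ hπ (a := b) (b := b) (by omega) hmem (Or.inr ⟨rfl, hkill⟩)
    have h2 : C.act (C.comp (C.comp (π b) (C.comp μ lam - C.diagC X)) (π b)) x = 0 := by
      rw [h1, C.act_zero, LinearMap.zero_apply]
    have h3 : C.act μ (C.act (π b) x) = 0 := by
      have h4 : C.act μ (C.act (π b) x) ∈ C.gr X (i + X.dim - b) :=
        C.act_mem hμ' (C.act_mem (hπ.mem b) hx.1 rfl) (by omega)
      rwa [C.gr_eq_bot X _ (by omega), Submodule.mem_bot] at h4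
    rw [C.act_comp, C.act_comp, C.act_sub, LinearMap.sub_apply, C.act_diagC, C.act_comp, h3,
      map_zero, zero_sub, map_neg, neg_eq_zero, hπ.act_act, if_pos rfl] at h2
    exact h2

lemma isBBT_of_isBB {F : Family C} (h : IsBB W F) : IsBBT (fun i => i + 1) W F :=
  ⟨⟨h.fil.anti, h.fil.zero, h.fil.one, h.fil.top⟩, h.functorial, h.motivic⟩

lemma IsBBT.weaken {F : Family C} (h : IsBBT (fun i => i + 1) W F) :
    IsBBT (fun i => 2 * i + 1) W F := by
  refine ⟨⟨h.fil.anti, h.fil.zero, h.fil.one, fun X i x hx => h.fil.top X i x ?_⟩,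
    h.functorial, h.motivic⟩
  have key : ∀ n, InF F X i (i + 1 + n) x → InF F X i (i + 1) x := by
    intro n
    induction n with
    | zero => exact id
    | succ n ih => intro hx; exact ih (h.fil.anti X i _ x hx)
  refine key i ?_
  have e : i + 1 + i = 2 * i + 1 := by omega
  rw [e]
  exact hx

/-- The main result. -/
theorem middle_criteria (hK : W.Kunneth) (hC : HasCurve C) :
    List.TFAE [∃ F : Family C, IsBBT (fun i => 2 * i + 1) W F, MiddleWeight W, MiddleCodim W] ∧
    ((∀ X, LefschetzStd W X) →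
      ((∃ F : Family C, IsBBT (fun i => i + 1) W F) ↔ MiddleWeight W)) := by
  constructor
  · tfae_have 1 → 2 := fun ⟨_, hF⟩ => hF.eigUp.middleWeight
    tfae_have 2 → 3 := fun h => (h.eigUp hC).middleCodim
    tfae_have 3 → 1 := fun h => ((h.eigUp hC).good hK).exists_isBBT
    tfae_finish
  · intro hL
    constructor
    · rintro ⟨F, hF⟩
      exact hF.weaken.eigUp.middleWeight
    · intro h
      have hS : ∀ X Y : 𝒱.Obj, (fun _ : 𝒱.Obj => True) X → (fun _ : 𝒱.Obj => True) Y →
        (fun _ : 𝒱.Obj => True) (X.prod Y) := fun _ _ _ _ => trivial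
      obtain ⟨F, hF, _⟩ := (((h.eigUp hC).good hK).goodOn hL).exists_bbCore hS
      exact ⟨F, isBBT_of_isBB (isBB_iff.2 hF)⟩

end Pool.Agent.T6.H15.BB
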